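import Pool.Agent.AF21.GrpBasic

/-!
# [TF49-ALG1] Half twists in a braid family

`up n t = t 0 * t 1 * ... * t (n-1)`, `D n t` is the half twist on `n` strands built from the generators `t 0, ..., t (n-2)`:
`D 0 t = D 1 t = 1`, `D (n+1) t = up n t * D n t`.
-/

set_option autoImplicit false

namespace TF49
open AF21
variable {Γ : Type} [Group Γ]

/-- `t 0 * t 1 * ... * t (n-1)` -/
def up (n : ℕ) (t : ℕ → Γ) : Γ := n.rec 1 (fun i x => x * t i)

@[simp] theorem up_zero (t : ℕ → Γ) : up 0 t = 1 := rfl
theorem up_succ (n : ℕ) (t : ℕ → Γ) : up (n + 1) t = up n t * t n := rfl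

/-- the half twist on `n` strands -/
def D (n : ℕ) (t : ℕ → Γ) : Γ := n.rec 1 (fun i x => up i t * x)

@[simp] theorem D_zero (t : ℕ → Γ) : D 0 t = 1 := rfl
theorem D_succ (n : ℕ) (t : ℕ → Γ) : D (n + 1) t = up n t * D n t := rfl
theorem D_one (t : ℕ → Γ) : D 1 t = 1 := by rw [D_succ, up_zero, D_zero, mul_one]
theorem D_two (t : ℕ → Γ) : D 2 t = t 0 := by
  rw [D_succ, D_one, up_succ, up_zero, one_mul, mul_one]

theorem bf_mono {k n : ℕ} {s : ℕ → Γ} (h : BraidFam k s) (hn : n ≤ k) : BraidFam n s :=
  ⟨fun i hi => h.braid i (by omega), fun i j hij hj => h.comm i j hij (by omega)⟩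

theorem bf_shift {k n a : ℕ} {s : ℕ → Γ} (h : BraidFam k s) (hn : a + n ≤ k) :
    BraidFam n (fun i => s (a + i)) :=
  ⟨fun i hi => h.braid (a + i) (by omega), fun i j hij hj => h.comm (a + i) (a + j) (by omega) (by omega)⟩

theorem up_congr {n : ℕ} {t t' : ℕ → Γ} (h : ∀ i, i < n → t i = t' i) : up n t = up n t' := by
  induction n with
  | zero => rfl
  | succ n ih => rw [up_succ, up_succ, ih fun i hi => h i (by omega), h n (by omega)]

theorem D_congr {n : ℕ} {t t' : ℕ → Γ} (h : ∀ i, i + 1 < n → t i = t' i) : D n t = D n t' := by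
  induction n with
  | zero => rfl
  | succ n ih => rw [D_succ, D_succ, ih fun i hi => h i (by omega), up_congr fun i hi => h i (by omega)]

theorem up_conj (g : Γ) (n : ℕ) (t : ℕ → Γ) : g * up n t * g⁻¹ = up n (fun i => g * t i * g⁻¹) := by
  induction n with
  | zero => simp
  | succ n ih =>
    rw [up_succ, up_succ, ← ih]
    group

theorem D_conj (g : Γ) (n : ℕ) (t : ℕ → Γ) : g * D n t * g⁻¹ = D n (fun i => g * t i * g⁻¹) := by
  induction n with
  | zero => simp
  | succ n ih =>
    rw [D_succ, D_succ, ← ih, ← up_conj]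
    group

theorem up_comm {x : Γ} {n : ℕ} {t : ℕ → Γ} (h : ∀ i, i < n → Commute x (t i)) : Commute x (up n t) := by
  induction n with
  | zero => exact Commute.one_right x
  | succ n ih => exact (ih fun i hi => h i (by omega)).mul_right (h n (by omega))

theorem D_comm {x : Γ} {n : ℕ} {t : ℕ → Γ} (h : ∀ i, i + 1 < n → Commute x (t i)) : Commute x (D n t) := by
  induction n with
  | zero => exact Commute.one_right x
  | succ n ih => exact (up_comm fun i hi => h i (by omega)).mul_right (ih fun i hi => h i (by omega))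

/-- `up n` shifts the generators -/
theorem up_shift {n : ℕ} {t : ℕ → Γ} (h : BraidFam (n + 1) t) {i : ℕ} (hi : i + 1 < n) :
    up n t * t i = t (i + 1) * up n t := by
  induction n with
  | zero => omega
  | succ n ih =>
    by_cases h1 : i + 1 < n
    · rw [up_succ, mul_assoc, ← h.comm i n (by omega) (by omega), ← mul_assoc,
        ih (bf_mono h (by omega)) h1, mul_assoc]
    · obtain rfl : n = i + 1 := by omega
      have hc : Commute (t (i + 1)) (up i t) := up_comm fun j hj =>
        (h.comm j (i + 1) (by omega) (by omega)).symm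
      have hb := h.braid i (by omega)
      rw [up_succ, up_succ]
      calc up i t * t i * t (i + 1) * t i = up i t * (t i * t (i + 1) * t i) := by simp only [mul_assoc]
        _ = (up i t * t (i + 1)) * t i * t (i + 1) := by rw [hb]; simp only [mul_assoc]
        _ = t (i + 1) * (up i t * t i * t (i + 1)) := by rw [← hc.eq]; simp only [mul_assoc]

/-- shifted `up` -/
theorem up_up {n m : ℕ} {t : ℕ → Γ} (h : BraidFam (n + 1) t) (hm : m < n) :
    up n t * up m t = up m (fun i => t (i + 1)) * up n t := by
  induction m with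
  | zero => simp
  | succ m ih =>
    rw [up_succ, up_succ, ← mul_assoc, ih (by omega), mul_assoc, up_shift h (by omega), mul_assoc]

theorem up_cons (n : ℕ) (t : ℕ → Γ) : up (n + 1) t = t 0 * up n (fun i => t (i + 1)) := by
  induction n with
  | zero => simp [up_succ]
  | succ n ih => rw [up_succ, ih, up_succ, mul_assoc]

/-- the half twist reverses the generators -/
theorem D_flip {n : ℕ} {t : ℕ → Γ} (h : BraidFam n t) {i : ℕ} (hi : i + 2 ≤ n) :
    D n t * t i = t (n - 2 - i) * D n t := by
  induction n generalizing i with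
  | zero => omega
  | succ n ih =>
    by_cases h1 : i + 2 ≤ n
    · rw [D_succ, mul_assoc, ih (bf_mono h (by omega)) h1, ← mul_assoc, up_shift h (by omega), mul_assoc]
      congr 2
      omega
    · obtain rfl : n = i + 1 := by omega
      have h0 : i + 1 + 1 - 2 - i = 0 := by omega
      rw [h0]
      have hc : Commute (t i) (D i t) := D_comm fun j hj => (h.comm j i (by omega) (by omega)).symm
      have key : up (i + 1) t * up (i + 1) t = t 0 * up (i + 1) t * up i t := by
        rw [mul_assoc (t 0), up_up (m := i) h (by omega), ← mul_assoc, ← up_cons]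
      calc D (i + 1 + 1) t * t i = up (i + 1) t * (up i t * (D i t * t i)) := by
            rw [D_succ, D_succ]; simp only [mul_assoc]
        _ = up (i + 1) t * (up i t * t i) * D i t := by rw [← hc.eq]; simp only [mul_assoc]
        _ = (up (i + 1) t * up (i + 1) t) * D i t := by rw [up_succ i t]
        _ = t 0 * D (i + 1 + 1) t := by rw [key, D_succ, D_succ]; simp only [mul_assoc]

theorem D_flip_conj {n : ℕ} {t : ℕ → Γ} (h : BraidFam n t) {i : ℕ} (hi : i + 2 ≤ n) :
    D n t * t i * (D n t)⁻¹ = t (n - 2 - i) := grpb_conj (D_flip h hi)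

/-- the half twist of the reversed family -/
theorem D_mirror {n : ℕ} {t : ℕ → Γ} (h : BraidFam n t) : D n (fun i => t (n - 2 - i)) = D n t := by
  have h1 : D n t * D n t * (D n t)⁻¹ = D n t := by rw [mul_inv_cancel_right]
  rw [D_conj] at h1
  rw [← h1]
  exact D_congr fun i hi => (D_flip_conj h (by omega)).symm

end TF49
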