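import Pool.Agent.TF49.Alg1

/-!
# [TF49-ALG2] Half twists of blocks of strands

`Hf s a n` is the half twist of the block of the `n` strands `a, ..., a+n-1`, `Fl s a n` its square.
-/

set_option autoImplicit false

namespace TF49
open AF21
variable {Γ : Type} [Group Γ] {k : ℕ} {s : ℕ → Γ}

/-- half twist of the strands `a, ..., a+n-1` -/
def Hf (s : ℕ → Γ) (a n : ℕ) : Γ := D n (fun i => s (a + i))

/-- full twist of the strands `a, ..., a+n-1` -/
def Fl (s : ℕ → Γ) (a n : ℕ) : Γ := Hf s a n * Hf s a n

/-- all generators are equal -/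
def AllEq (k : ℕ) (s : ℕ → Γ) : Prop := ∀ i, i + 1 < k → s i = s 0

/-- commutation of generators -/
theorem bf_commute (h : BraidFam k s) {i j : ℕ} (hij : i + 2 ≤ j ∨ j + 2 ≤ i ∨ i = j) (hi : i + 1 < k)
    (hj : j + 1 < k) : Commute (s i) (s j) := by
  rcases hij with h1 | h1 | h1
  · exact h.comm i j h1 hj
  · exact (h.comm j i h1 hi).symm
  · rw [h1]

/-- far generators commute with the half twist -/
theorem Hf_comm_far (h : BraidFam k s) {a n j : ℕ} (han : a + n ≤ k) (hj : j + 1 < k)
    (hja : j + 1 < a ∨ a + n ≤ j) : Commute (s j) (Hf s a n) :=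
  D_comm fun i hi => bf_commute h (by omega) hj (by omega)

theorem Hf_comm_Hf (h : BraidFam k s) {a n b n' : ℕ} (hab : a + n ≤ b) (hb : b + n' ≤ k) :
    Commute (Hf s a n) (Hf s b n') :=
  D_comm fun _ hi => (Hf_comm_far h (by omega) (by omega) (Or.inr (by omega))).symm

/-- the half twist reverses the generators of the block -/
theorem Hf_flip (h : BraidFam k s) {a n i : ℕ} (han : a + n ≤ k) (hi : i + 2 ≤ n) :
    Hf s a n * s (a + i) * (Hf s a n)⁻¹ = s (a + (n - 2 - i)) :=
  D_flip_conj (t := fun i => s (a + i)) (bf_shift h han) hi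

/-- the full twist commutes with the generators of the block -/
theorem Fl_comm_in (h : BraidFam k s) {a n i : ℕ} (han : a + n ≤ k) (hi : i + 2 ≤ n) :
    Commute (s (a + i)) (Fl s a n) := by
  have h1 := Hf_flip h han hi
  have h2 := Hf_flip h han (i := n - 2 - i) (by omega)
  have h3 : n - 2 - (n - 2 - i) = i := by omega
  rw [h3] at h2
  have h4 : Fl s a n * s (a + i) * (Fl s a n)⁻¹ = s (a + i) := by
    have e : Fl s a n * s (a + i) * (Fl s a n)⁻¹ =
        Hf s a n * (Hf s a n * s (a + i) * (Hf s a n)⁻¹) * (Hf s a n)⁻¹ := by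
      unfold Fl
      group
    rw [e, h1, h2]
  exact (mul_inv_eq_iff_eq_mul.1 h4).symm

/-- the full twist commutes with all generators except the two at the border of the block -/
theorem Fl_comm (h : BraidFam k s) {a n j : ℕ} (han : a + n ≤ k) (hj : j + 1 < k) (h1 : j + 1 ≠ a)
    (h2 : j + 1 ≠ a + n) : Commute (s j) (Fl s a n) := by
  by_cases h3 : j + 1 < a ∨ a + n ≤ j
  · exact (Hf_comm_far h han hj h3).mul_right (Hf_comm_far h han hj h3)
  · have h4 := Fl_comm_in h (a := a) (n := n) (i := j - a) han (by omega)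
    have h5 : a + (j - a) = j := by omega
    rwa [h5] at h4

theorem Hf_commute_Fl (a n : ℕ) : Commute (Hf s a n) (Fl s a n) :=
  (Commute.refl _).mul_right (Commute.refl _)

/-- the half twist of everything exchanges the first and the last block -/
theorem Hf_swap (h : BraidFam k s) {n : ℕ} (hn : n ≤ k) :
    Hf s 0 k * Hf s 0 n * (Hf s 0 k)⁻¹ = Hf s (k - n) n := by
  have h1 : Hf s 0 k * Hf s 0 n * (Hf s 0 k)⁻¹ = D n (fun i => s (k - 2 - i)) := by
    conv_lhs => rw [Hf.eq_1 s 0 n, D_conj]
    refine D_congr fun i hi => ?_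
    rw [Hf_flip h (by omega) (by omega), Nat.zero_add]
  rw [h1]
  unfold Hf
  rw [← D_mirror (bf_shift h (a := k - n) (n := n) (by omega))]
  refine D_congr fun i hi => ?_
  congr 1
  omega

/-- the full twist of everything is central -/
theorem Fl_central (h : BraidFam k s) {j : ℕ} (hj : j + 1 < k) : Commute (s j) (Fl s 0 k) :=
  Fl_comm h (by omega) hj (by omega) (by omega)

theorem Fl_central_Hf (h : BraidFam k s) {a n : ℕ} (han : a + n ≤ k) :
    Commute (Hf s a n) (Fl s 0 k) :=
  (D_comm fun i hi => (Fl_central h (j := a + i) (by omega)).symm).symm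

theorem Hf_swap' (h : BraidFam k s) {n : ℕ} (hn : n ≤ k) :
    Hf s 0 k * Hf s (k - n) n * (Hf s 0 k)⁻¹ = Hf s 0 n := by
  rw [← Hf_swap h hn]
  have h2 : Commute (Hf s 0 n) (Fl s 0 k) := Fl_central_Hf h (by omega)
  have e : Hf s 0 k * (Hf s 0 k * Hf s 0 n * (Hf s 0 k)⁻¹) * (Hf s 0 k)⁻¹ =
      Fl s 0 k * Hf s 0 n * (Fl s 0 k)⁻¹ := by
    unfold Fl
    group
  rw [e, ← h2.eq, mul_inv_cancel_right]

theorem Fl_swap (h : BraidFam k s) {n : ℕ} (hn : n ≤ k) :
    Hf s 0 k * Fl s 0 n * (Hf s 0 k)⁻¹ = Fl s (k - n) n := by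
  unfold Fl
  rw [← Hf_swap h hn]
  group

theorem Fl_swap' (h : BraidFam k s) {n : ℕ} (hn : n ≤ k) :
    Hf s 0 k * Fl s (k - n) n * (Hf s 0 k)⁻¹ = Fl s 0 n := by
  unfold Fl
  rw [← Hf_swap' h hn]
  group

/-- shifting by `up` -/
theorem up_conj_shift (h : BraidFam k s) {i : ℕ} (hi : i + 2 < k) :
    up (k - 1) s * s i * (up (k - 1) s)⁻¹ = s (i + 1) := by
  apply grpb_conj
  exact up_shift (n := k - 1) (bf_mono h (by omega)) (by omega)

/-- equality of the generators at distance `d` propagates to the right -/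
theorem eq_shift (h : BraidFam k s) {a b : ℕ} (hb : b + 2 < k) (hab : s a = s b) (ha : a + 2 < k) :
    s (a + 1) = s (b + 1) := by
  rw [← up_conj_shift h ha, ← up_conj_shift h hb, hab]

/-- two neighbours are equal: all are equal -/
theorem allEq_of_adj (h : BraidFam k s) {a : ℕ} (ha : a + 2 < k) (hab : s a = s (a + 1)) : AllEq k s := by
  have h1 : ∀ j, j + 2 < k → s j = s (j + 1) := fun j hj => by
    have := adj_all h 1 ha (by simpa using hab) j hj
    simpa using this
  intro i
  induction i with
  | zero => intro _; rfl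
  | succ i ih => intro hi; rw [← h1 i (by omega), ih (by omega)]

/-- two commuting neighbours: all generators are equal -/
theorem allEq_of_commute (h : BraidFam k s) {a : ℕ} (ha : a + 2 < k) (hc : Commute (s a) (s (a + 1))) :
    AllEq k s := by
  apply allEq_of_adj h ha
  have h1 := h.braid a ha
  rw [hc.eq, mul_assoc, mul_assoc] at h1
  exact mul_left_cancel (mul_left_cancel h1)

/-- two different generators are equal: all are equal -/
theorem allEq_of_eq (h : BraidFam k s) (hk : 4 < k) {a b : ℕ} (hab : a < b) (hb : b + 1 < k)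
    (he : s a = s b) : AllEq k s := by
  by_cases h1 : b = a + 1
  · subst h1
    exact allEq_of_adj h (by omega) he
  by_cases h2 : b + 2 < k
  · -- `s (b+1)` commutes with `s a = s b`
    apply allEq_of_commute h (a := b) h2
    rw [← he]
    exact bf_commute h (by omega) (by omega) (by omega)
  · by_cases h3 : 0 < a
    · -- `s (a-1)` commutes with `s b = s a`
      have h4 : Commute (s (a - 1)) (s a) := by
        rw [he]
        exact bf_commute h (by omega) (by omega) (by omega)
      have h5 : s a = s (a - 1 + 1) := by congr 1; omega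
      rw [h5] at h4
      exact allEq_of_commute h (by omega) h4
    · -- `a = 0`, `b = k - 2 ≥ 3`: `s 1` commutes with `s b = s 0`
      obtain rfl : a = 0 := by omega
      apply allEq_of_commute h (a := 0) (by omega)
      rw [he]
      exact bf_commute h (by omega) (by omega) (by omega)

end TF49
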