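import Pool.Agent.TF49.Alg2

/-!
# [TF49-ALG3] Consequences of torsion-freeness
-/

set_option autoImplicit false

namespace TF49
open AF21
variable {Γ : Type} [Group Γ] {k : ℕ} {s : ℕ → Γ}

/-- no elements of finite order except `1` -/
def TFree (Γ : Type) [Group Γ] : Prop := ∀ (x : Γ) (n : ℕ), n ≠ 0 → x ^ n = 1 → x = 1

theorem TFree.zpow (hT : TFree Γ) {x : Γ} {n : ℤ} (hn : n ≠ 0) (h : x ^ n = 1) : x = 1 := by
  apply hT x n.natAbs (Int.natAbs_ne_zero.2 hn)
  rcases Int.natAbs_eq n with h1 | h1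
  · rw [h1, zpow_natCast] at h
    exact h
  · rw [h1, zpow_neg, zpow_natCast, inv_eq_one] at h
    exact h

theorem TFree.eq_of_zpow (hT : TFree Γ) {x y : Γ} (hc : Commute x y) {n : ℤ} (hn : n ≠ 0)
    (h : x ^ n = y ^ n) : x = y := by
  have h1 : (x * y⁻¹) ^ n = 1 := by
    rw [(hc.inv_right).mul_zpow, inv_zpow, h, mul_inv_cancel]
  exact mul_inv_eq_one.1 (hT.zpow hn h1)

theorem TFree.eq_of_sq (hT : TFree Γ) {x y : Γ} (hc : Commute x y) (h : x * x = y * y) : x = y := by
  apply hT.eq_of_zpow hc (n := 2) (by norm_num)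
  rw [zpow_two, zpow_two, h]

/-- equal full twists of the first and the last block -/
theorem allEq_of_Fl_eq (hT : TFree Γ) (h : BraidFam k s) (hk : 4 < k) {i : ℕ} (hi : 2 ≤ i)
    (hik : 2 * i ≤ k) (he : Fl s 0 i = Fl s (k - i) i) : AllEq k s := by
  have h1 : Hf s 0 i = Hf s (k - i) i :=
    hT.eq_of_sq (Hf_comm_Hf h (by omega) (by omega)) he
  by_cases h2 : i = 2
  · subst h2
    unfold Hf at h1
    rw [D_two, D_two] at h1
    simp only [add_zero] at h1
    exact allEq_of_eq h hk (a := 0) (b := k - 2) (by omega) (by omega) h1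
  · have h3 : Commute (s 0) (Hf s (k - i) i) := Hf_comm_far h (by omega) (by omega) (by omega)
    rw [← h1] at h3
    have h4 := Hf_flip h (a := 0) (n := i) (i := 0) (by omega) (by omega)
    rw [Nat.zero_add, ← h3.eq, mul_inv_cancel_right] at h4
    exact allEq_of_eq h hk (a := 0) (b := 0 + (i - 2 - 0)) (by omega) (by omega) h4

/-- a power of the full twist of the first block commutes with all generators -/
theorem allEq_of_central (hT : TFree Γ) (h : BraidFam k s) (hk : 4 < k) {i : ℕ} (hi : 2 ≤ i)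
    (hik : 2 * i ≤ k) {n : ℤ} (hn : n ≠ 0) (hc : ∀ j, j + 1 < k → Commute (s j) (Fl s 0 i ^ n)) :
    AllEq k s := by
  apply allEq_of_Fl_eq hT h hk hi hik
  have h1 : Commute (Hf s 0 k) (Fl s 0 i ^ n) := (D_comm fun j hj => by
    rw [Nat.zero_add]
    exact (hc j hj).symm).symm
  have h2 : Fl s (k - i) i ^ n = Fl s 0 i ^ n := by
    rw [← Fl_swap h (by omega), conj_zpow, h1.eq, mul_inv_cancel_right]
  refine hT.eq_of_zpow ?_ hn h2.symm
  have h3 : Commute (Hf s 0 i) (Hf s (k - i) i) := Hf_comm_Hf h (by omega) (by omega)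
  exact (h3.mul_right h3).mul_left (h3.mul_right h3)

/-- the same for the last block -/
theorem allEq_of_central' (hT : TFree Γ) (h : BraidFam k s) (hk : 4 < k) {i : ℕ} (hi : 2 ≤ i)
    (hik : 2 * i ≤ k) {n : ℤ} (hn : n ≠ 0) (hc : ∀ j, j + 1 < k → Commute (s j) (Fl s (k - i) i ^ n)) :
    AllEq k s := by
  apply allEq_of_central hT h hk hi hik hn
  have h1 : Commute (Hf s 0 k) (Fl s (k - i) i ^ n) := (D_comm fun j hj => by
    rw [Nat.zero_add]
    exact (hc j hj).symm).symm
  have h2 : Fl s (k - i) i ^ n = Fl s 0 i ^ n := by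
    rw [← Fl_swap' h (n := i) (by omega), conj_zpow, h1.eq, mul_inv_cancel_right]
  intro j hj
  rw [← h2]
  exact hc j hj

/-- the full twist of everything has infinite order -/
theorem allEq_of_Fl_one (hT : TFree Γ) (h : BraidFam k s) (hk : 4 < k) {c : ℤ} (hc : c ≠ 0)
    (he : Fl s 0 k ^ c = 1) : AllEq k s := by
  have h1 : Hf s 0 k * Hf s 0 k = 1 := hT.zpow hc he
  have h2 : Hf s 0 k = 1 := hT.eq_of_sq (Commute.one_right _) (by rw [h1, one_mul])
  have h4 := Hf_flip h (a := 0) (n := k) (i := 0) (by omega) (by omega)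
  rw [h2, one_mul, inv_one, mul_one] at h4
  exact allEq_of_eq h hk (a := 0 + 0) (b := 0 + (k - 2 - 0)) (by omega) (by omega) h4

/-- the last step for even `k` -/
theorem even_final (hT : TFree Γ) (h : BraidFam k s) (hk : 4 < k) {m : ℕ} (hm : k = 2 * m) {a b c : ℤ}
    (hrel : Fl s 0 m ^ a * Fl s (k - m) m ^ b * Fl s 0 k ^ c = 1)
    (hpar : ¬ ((2 : ℤ) ∣ a ∧ (2 : ℤ) ∣ b ∧ (2 : ℤ) ∣ c)) : AllEq k s := by
  have hHH : Commute (Hf s 0 m) (Hf s (k - m) m) := Hf_comm_Hf h (by omega) (by omega)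
  have hRT : Hf s 0 k * Fl s 0 m * (Hf s 0 k)⁻¹ = Fl s (k - m) m := Fl_swap h (by omega)
  have hRT' : Hf s 0 k * Fl s (k - m) m * (Hf s 0 k)⁻¹ = Fl s 0 m := Fl_swap' h (by omega)
  have hcE : Commute (Hf s 0 m) (Fl s 0 k) := Fl_central_Hf h (by omega)
  have hcF : Commute (Hf s (k - m) m) (Fl s 0 k) := Fl_central_Hf h (by omega)
  have hs0T : Commute (s 0) (Fl s 0 m) := Fl_comm h (by omega) (by omega) (by omega) (by omega)
  have hs0T' : Commute (s 0) (Fl s (k - m) m) := Fl_comm h (by omega) (by omega) (by omega) (by omega)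
  have hs0F : Commute (s 0) (Hf s (k - m) m) := Hf_comm_far h (by omega) (by omega) (by omega)
  have hs0Z' : Commute (s 0) (Fl s 0 k) := Fl_central h (by omega)
  have hflip := Hf_flip h (a := 0) (n := m) (i := 0) (by omega) (by omega)
  rw [Nat.zero_add] at hflip
  by_contra hne
  have hTT : Fl s 0 m ≠ Fl s (k - m) m := fun e =>
    hne (allEq_of_Fl_eq hT h hk (by omega) (by omega) e)
  have hs : s 0 ≠ s (0 + (m - 2 - 0)) := fun e =>
    hne (allEq_of_eq h hk (a := 0) (b := 0 + (m - 2 - 0)) (by omega) (by omega) e)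
  unfold Fl at hrel hRT hRT' hcE hcF hs0T hs0T' hTT hs0Z'
  generalize Hf s 0 m = E at *
  generalize Hf s (k - m) m = F at *
  generalize Hf s 0 k = R at *
  generalize s 0 = s0 at *
  generalize s (0 + (m - 2 - 0)) = s1 at *
  -- `T = E * E`, `T' = F * F`, `Z = R * R`
  have hT1 : Commute (E * E) (F * F) := (hHH.mul_right hHH).mul_left (hHH.mul_right hHH)
  have hZT : Commute (E * E) (R * R) := hcE.mul_left hcE
  have hZT' : Commute (F * F) (R * R) := hcF.mul_left hcF
  have hRZ : Commute R (R * R) := (Commute.refl R).mul_right (Commute.refl R)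
  have hconj : (F * F) ^ a * (E * E) ^ b * (R * R) ^ c = 1 := by
    have e := congrArg (MulAut.conj R) hrel
    rw [map_mul, map_mul, map_zpow, map_zpow, map_zpow, map_one, MulAut.conj_apply, MulAut.conj_apply,
      MulAut.conj_apply, hRT, hRT', hRZ.eq, mul_inv_cancel_right] at e
    exact e
  have hab : a = b := by
    by_contra hab
    apply hTT
    apply hT.eq_of_zpow hT1 (n := a - b) (sub_ne_zero.2 hab)
    have e1 : (E * E) ^ a * (F * F) ^ b = (F * F) ^ a * (E * E) ^ b :=
      mul_right_cancel (hrel.trans hconj.symm)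
    rw [zpow_sub, zpow_sub, mul_inv_eq_iff_eq_mul, mul_assoc, (hT1.symm.zpow_zpow b b).inv_left.eq,
      ← mul_assoc, ← e1, mul_assoc, mul_inv_cancel, mul_one]
  subst hab
  have hW : (E * E * (F * F)) ^ a * (R * R) ^ c = 1 := by
    rw [hT1.mul_zpow]
    exact hrel
  have hWT : Commute (E * E * (F * F)) (E * E) := (Commute.refl _).mul_left hT1.symm
  have hRW : Commute R (E * E * (F * F)) := by
    have e : R * (E * E * (F * F)) * R⁻¹ = E * E * (F * F) := by
      have e := map_mul (MulAut.conj R) (E * E) (F * F)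
      rw [MulAut.conj_apply, MulAut.conj_apply, MulAut.conj_apply, hRT, hRT'] at e
      rw [e, hT1.eq]
    exact mul_inv_eq_iff_eq_mul.1 e
  have hWZ : Commute (E * E * (F * F)) (R * R) := hZT.mul_left hZT'
  -- the powers of `Z` and `W`
  have hZc : (R * R) ^ c = (E * E * (F * F)) ^ (-a) := by
    rw [zpow_neg]
    exact eq_inv_of_mul_eq_one_right hW
  have hRT2 : ¬ Commute R (E * E) := fun e => hTT (by rw [← hRT, e.eq, mul_inv_cancel_right])
  rcases Int.even_or_odd' a with ⟨a', ha | ha⟩ <;> rcases Int.even_or_odd' c with ⟨c', hc | hc⟩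
  · exact hpar ⟨⟨a', ha⟩, ⟨a', ha⟩, ⟨c', hc⟩⟩
  · -- `a` even, `c` odd
    have e1 : R ^ c = (E * E * (F * F)) ^ (-a') := by
      apply hT.eq_of_sq ((hRW.zpow_zpow c (-a')))
      rw [← (Commute.refl R).mul_zpow, hZc, ← zpow_add]
      congr 1
      omega
    have e2 : Commute (R ^ c) (E * E) := by
      rw [e1]
      exact hWT.zpow_left _
    have e3 : R ^ c = (R * R) ^ c' * R := by
      rw [hc, zpow_add_one, zpow_mul, zpow_two]
    have e4 : R = ((R * R) ^ c')⁻¹ * R ^ c := by
      rw [e3, inv_mul_cancel_left]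
    apply hRT2
    rw [e4]
    exact ((hZT.symm.zpow_left c').inv_left).mul_left e2
  · -- `a` odd, `c` even
    have hVW : (E * F) * (E * F) = E * E * (F * F) := by
      rw [mul_assoc, ← mul_assoc F E F, ← hHH.eq, mul_assoc E F F, ← mul_assoc]
    have hVZ : Commute (E * F) (R * R) := hcE.mul_left hcF
    have e1 : (E * F) ^ a = (R * R) ^ (-c') := by
      apply hT.eq_of_sq (hVZ.zpow_zpow a (-c'))
      rw [← (Commute.refl (E * F)).mul_zpow, hVW, ← zpow_add]
      have e : (E * E * (F * F)) ^ a = (R * R) ^ (-c) := by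
        rw [zpow_neg]
        exact eq_inv_of_mul_eq_one_left hW
      rw [e]
      congr 1
      omega
    have hs0Z : Commute s0 (R * R) := hs0Z'
    have e2 : Commute s0 ((E * F) ^ a) := by
      rw [e1]
      exact hs0Z.zpow_right _
    have e3 : (E * F) ^ a = (E * E * (F * F)) ^ a' * (E * F) := by
      rw [ha, zpow_add_one, zpow_mul, zpow_two, hVW]
    have e4 : E * F = ((E * E * (F * F)) ^ a')⁻¹ * (E * F) ^ a := by
      rw [e3, inv_mul_cancel_left]
    have e5 : Commute s0 (E * F) := by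
      rw [e4]
      exact (((hs0T.mul_right hs0T').zpow_right a').inv_right).mul_right e2
    have e6 : Commute s0 E := by
      have e7 : E = E * F * F⁻¹ := by rw [mul_inv_cancel_right]
      rw [e7]
      exact e5.mul_right hs0F.inv_right
    apply hs
    rw [← hflip, ← e6.eq, mul_inv_cancel_right]
  · -- both odd
    have hRinv : R⁻¹ * (E * E) * R = F * F := by
      rw [← hRT']
      group
    have hS2 : (R * (E * E)⁻¹) * (R * (E * E)⁻¹) = (R * R) * (E * E * (F * F))⁻¹ := by
      have e : (R * (E * E)⁻¹) * (R * (E * E)⁻¹) = (R * R) * (R⁻¹ * (E * E) * R)⁻¹ * (E * E)⁻¹ := by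
        group
      rw [e, hRinv, mul_assoc, ← mul_inv_rev]
    have hSW : Commute (R * (E * E)⁻¹) (E * E * (F * F)) := hRW.mul_left hWT.symm.inv_left
    have e1 : (R * (E * E)⁻¹) ^ c = (E * E * (F * F)) ^ (-(a' + c' + 1)) := by
      apply hT.eq_of_sq (hSW.zpow_zpow c _)
      rw [← (Commute.refl (R * (E * E)⁻¹)).mul_zpow, hS2, hWZ.symm.inv_right.mul_zpow, hZc, inv_zpow',
        ← zpow_add, ← zpow_add]
      congr 1
      omega
    have e2 : Commute ((R * (E * E)⁻¹) ^ c) (E * E) := by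
      rw [e1]
      exact hWT.zpow_left _
    have e3 : (R * (E * E)⁻¹) ^ c = ((R * R) * (E * E * (F * F))⁻¹) ^ c' * (R * (E * E)⁻¹) := by
      rw [hc, zpow_add_one, zpow_mul, zpow_two, hS2]
    have e4 : R * (E * E)⁻¹ = (((R * R) * (E * E * (F * F))⁻¹) ^ c')⁻¹ * (R * (E * E)⁻¹) ^ c := by
      rw [e3, inv_mul_cancel_left]
    have e5 : Commute (R * (E * E)⁻¹) (E * E) := by
      rw [e4]
      exact (((hZT.symm.mul_left hWT.inv_left).zpow_left c').inv_left).mul_left e2
    apply hRT2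
    have e6 : R = R * (E * E)⁻¹ * (E * E) := by rw [inv_mul_cancel_right]
    rw [e6]
    exact e5.mul_left (Commute.refl _)

end TF49
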