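import Pool.Agent.TF49.Alg3

/-!
# [TF49-ALGMAIN] The relation in a torus of dimension `2 ⌊k/2⌋ - 1` forces all generators to be equal
-/

set_option autoImplicit false

namespace TF49
open AF21
variable {Γ : Type} [Group Γ] {k : ℕ} {s : ℕ → Γ}

/-- the basis of the torus: full twists of the first `j + 2` strands (`j < m - 1`), of the last `j + 3 - m` strands
(`m - 1 ≤ j < 2 m - 2`), of all strands (`m = ⌊k/2⌋`) -/
def bas (k : ℕ) (s : ℕ → Γ) (j : ℕ) : Γ :=
  if j + 1 < k / 2 then Fl s 0 (j + 2)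
  else if j + 2 < 2 * (k / 2) then Fl s (k - (j + 3 - k / 2)) (j + 3 - k / 2)
  else Fl s 0 k

theorem hom_comm {n : ℕ} (φ : Multiplicative (Fin n → ℤ) →* Γ) (x : Γ) (v : Fin n → ℤ)
    (h : ∀ j, v j = 0 ∨ Commute x (φ (Multiplicative.ofAdd (Pi.single j 1)))) :
    Commute x (φ (Multiplicative.ofAdd v)) := by
  let S : AddSubgroup (Fin n → ℤ) :=
    { carrier := {w | Commute x (φ (Multiplicative.ofAdd w))}
      zero_mem' := by
        change Commute x (φ 1)
        rw [map_one]
        exact Commute.one_right x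
      add_mem' := fun {a b} ha hb => by
        change Commute x (φ (Multiplicative.ofAdd a * Multiplicative.ofAdd b))
        rw [map_mul]
        exact Commute.mul_right ha hb
      neg_mem' := fun {a} ha => by
        change Commute x (φ (Multiplicative.ofAdd a)⁻¹)
        rw [map_inv]
        exact Commute.inv_right ha }
  have h1 : (∑ j, v j • (Pi.single j (1 : ℤ) : Fin n → ℤ)) = v := by
    funext i
    simp [Finset.sum_apply, Pi.single_apply]
  have h2 : v ∈ S := by
    rw [← h1]
    refine AddSubgroup.sum_mem _ fun j _ => ?_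
    rcases h j with h3 | h3
    · rw [h3, zero_smul]
      exact S.zero_mem
    · exact AddSubgroup.zsmul_mem _ h3 _
  exact h2

/-- conjugation of a relation -/
theorem hom_comm_factor {n : ℕ} (φ : Multiplicative (Fin n → ℤ) →* Γ) (x : Γ) (v : Fin n → ℤ)
    (hv : φ (Multiplicative.ofAdd v) = 1) (j1 : Fin n)
    (h : ∀ j, j ≠ j1 → v j = 0 ∨ Commute x (φ (Multiplicative.ofAdd (Pi.single j 1)))) :
    Commute x (φ (Multiplicative.ofAdd (Pi.single j1 1)) ^ v j1) := by
  have h1 : Commute x (φ (Multiplicative.ofAdd (Function.update v j1 0))) := by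
    apply hom_comm
    intro j
    by_cases hj : j = j1
    · left
      rw [hj, Function.update_self]
    · rw [Function.update_of_ne hj]
      exact h j hj
  have h2 : v = Function.update v j1 0 + v j1 • (Pi.single j1 (1 : ℤ) : Fin n → ℤ) := by
    funext j
    by_cases hj : j = j1
    · subst hj
      simp
    · simp [Function.update_of_ne hj, Pi.single_eq_of_ne hj]
  have h3 : φ (Multiplicative.ofAdd v) = φ (Multiplicative.ofAdd (Function.update v j1 0)) *
      φ (Multiplicative.ofAdd (Pi.single j1 1)) ^ v j1 := by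
    conv_lhs => rw [h2]
    rw [ofAdd_add, ofAdd_zsmul, map_mul, map_zpow]
  rw [hv] at h3
  have h4 : φ (Multiplicative.ofAdd (Pi.single j1 1)) ^ v j1 =
      (φ (Multiplicative.ofAdd (Function.update v j1 0)))⁻¹ := eq_inv_of_mul_eq_one_right h3.symm
  rw [h4]
  exact h1.inv_right

/-- the generators which may fail to commute with `bas k s j` -/
theorem bas_comm (h : BraidFam k s) (hk : 4 < k) {i j : ℕ} (hi : i + 1 < k) (hj : j < 2 * (k / 2) - 1)
    (h1 : j + 1 < k / 2 → i ≠ j + 1) (h2 : ¬ j + 1 < k / 2 → j + 2 < 2 * (k / 2) → i + 1 ≠ k - (j + 3 - k / 2)) :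
    Commute (s i) (bas k s j) := by
  unfold bas
  split_ifs with h3 h4
  · exact Fl_comm h (by omega) hi (by omega) (by have := h1 h3; omega)
  · exact Fl_comm h (by omega) hi (h2 h3 h4) (by omega)
  · exact Fl_central h hi

theorem alg_main (hT : TFree Γ) (h : BraidFam k s) (hk : 4 < k)
    (φ : Multiplicative (Fin (2 * (k / 2) - 1) → ℤ) →* Γ)
    (hφ : ∀ j, φ (Multiplicative.ofAdd (Pi.single j 1)) = bas k s j) (v : Fin (2 * (k / 2) - 1) → ℤ)
    (hv : ¬ ∀ j, (2 : ℤ) ∣ v j) (h1 : φ (Multiplicative.ofAdd v) = 1) : AllEq k s := by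
  by_contra hne
  -- first the exponents with a generator of their own
  have hE : ∀ j : Fin (2 * (k / 2) - 1), (j : ℕ) + 1 < k / 2 → ((j : ℕ) + 2 < k / 2 ∨ k % 2 = 1) →
      v j = 0 := by
    intro j hj hj2
    by_contra h0
    apply hne
    have e : bas k s j = Fl s 0 ((j : ℕ) + 2) := by
      unfold bas
      rw [if_pos hj]
    apply allEq_of_central hT h hk (i := (j : ℕ) + 2) (by omega) (by omega) h0
    intro i hi
    rw [← e, ← hφ]
    by_cases hij : i = (j : ℕ) + 1
    · apply hom_comm_factor φ (s i) v h1 j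
      intro j' hj'
      right
      rw [hφ]
      have hne' : (j' : ℕ) ≠ j := fun e => hj' (Fin.ext e)
      exact bas_comm h hk hi j'.2 (by omega) (by omega)
    · rw [hφ]
      exact (bas_comm h hk hi j.2 (by omega) (by omega)).zpow_right _
  have hF : ∀ j : Fin (2 * (k / 2) - 1), ¬ (j : ℕ) + 1 < k / 2 → (j : ℕ) + 2 < 2 * (k / 2) →
      ((j : ℕ) + 3 < 2 * (k / 2) ∨ k % 2 = 1) → v j = 0 := by
    intro j hj hj1 hj2
    by_contra h0
    apply hne
    have e : bas k s j = Fl s (k - ((j : ℕ) + 3 - k / 2)) ((j : ℕ) + 3 - k / 2) := by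
      unfold bas
      rw [if_neg hj, if_pos hj1]
    apply allEq_of_central' hT h hk (i := (j : ℕ) + 3 - k / 2) (by omega) (by omega) h0
    intro i hi
    rw [← e, ← hφ]
    by_cases hij : i + 1 = k - ((j : ℕ) + 3 - k / 2)
    · apply hom_comm_factor φ (s i) v h1 j
      intro j' hj'
      right
      rw [hφ]
      have hne' : (j' : ℕ) ≠ j := fun e => hj' (Fin.ext e)
      exact bas_comm h hk hi j'.2 (by omega) (by omega)
    · rw [hφ]
      exact (bas_comm h hk hi j.2 (by omega) (by omega)).zpow_right _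
  have hW : (2 * (k / 2) - 2) < 2 * (k / 2) - 1 := by omega
  by_cases hpar : k % 2 = 1
  · -- odd `k`
    have h2 : ∀ j : Fin (2 * (k / 2) - 1), j ≠ ⟨2 * (k / 2) - 2, hW⟩ → v j = 0 := by
      intro j hj
      have hj' : (j : ℕ) ≠ 2 * (k / 2) - 2 := fun e => hj (Fin.ext e)
      have hj2 := j.2
      by_cases h3 : (j : ℕ) + 1 < k / 2
      · exact hE j h3 (Or.inr hpar)
      · exact hF j h3 (by omega) (Or.inr hpar)
    have h3 : v = v ⟨2 * (k / 2) - 2, hW⟩ • (Pi.single ⟨2 * (k / 2) - 2, hW⟩ (1 : ℤ) : Fin _ → ℤ) := by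
      funext j
      by_cases hj : j = ⟨2 * (k / 2) - 2, hW⟩
      · subst hj
        simp
      · rw [h2 j hj]
        simp [Pi.single_eq_of_ne hj]
    have h4 : v ⟨2 * (k / 2) - 2, hW⟩ ≠ 0 := by
      intro h5
      apply hv
      intro j
      rw [h3, h5]
      simp
    rw [h3, ofAdd_zsmul, map_zpow, hφ] at h1
    apply hne
    apply allEq_of_Fl_one hT h hk h4
    have e : bas k s (2 * (k / 2) - 2) = Fl s 0 k := by
      unfold bas
      rw [if_neg (by omega), if_neg (by omega)]
    rw [← e]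
    exact h1
  · -- even `k`
    have hk6 : 6 ≤ k := by omega
    have hA : (k / 2 - 2) < 2 * (k / 2) - 1 := by omega
    have hB : (2 * (k / 2) - 3) < 2 * (k / 2) - 1 := by omega
    have h2 : ∀ j : Fin (2 * (k / 2) - 1), j ≠ ⟨k / 2 - 2, hA⟩ → j ≠ ⟨2 * (k / 2) - 3, hB⟩ →
        j ≠ ⟨2 * (k / 2) - 2, hW⟩ → v j = 0 := by
      intro j hj1 hj2 hj3
      have hj1' : (j : ℕ) ≠ k / 2 - 2 := fun e => hj1 (Fin.ext e)
      have hj2' : (j : ℕ) ≠ 2 * (k / 2) - 3 := fun e => hj2 (Fin.ext e)
      have hj3' : (j : ℕ) ≠ 2 * (k / 2) - 2 := fun e => hj3 (Fin.ext e)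
      have hj := j.2
      by_cases h3 : (j : ℕ) + 1 < k / 2
      · exact hE j h3 (Or.inl (by omega))
      · exact hF j h3 (by omega) (Or.inl (by omega))
    set jA : Fin (2 * (k / 2) - 1) := ⟨k / 2 - 2, hA⟩ with hjA
    set jB : Fin (2 * (k / 2) - 1) := ⟨2 * (k / 2) - 3, hB⟩ with hjB
    set jW : Fin (2 * (k / 2) - 1) := ⟨2 * (k / 2) - 2, hW⟩ with hjW
    have nAB : jA ≠ jB := fun e => by
      have := congrArg Fin.val e
      simp only [hjA, hjB] at this
      omega
    have nAW : jA ≠ jW := fun e => by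
      have := congrArg Fin.val e
      simp only [hjA, hjW] at this
      omega
    have nBW : jB ≠ jW := fun e => by
      have := congrArg Fin.val e
      simp only [hjB, hjW] at this
      omega
    have h3 : v = v jA • (Pi.single jA (1 : ℤ) : Fin _ → ℤ) + v jB • (Pi.single jB (1 : ℤ) : Fin _ → ℤ) +
        v jW • (Pi.single jW (1 : ℤ) : Fin _ → ℤ) := by
      funext j
      by_cases hj1 : j = jA
      · rw [hj1]
        simp [Pi.single_eq_of_ne nAB, Pi.single_eq_of_ne nAW]
      by_cases hj2 : j = jB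
      · rw [hj2]
        simp [Pi.single_eq_of_ne nAB.symm, Pi.single_eq_of_ne nBW]
      by_cases hj3 : j = jW
      · rw [hj3]
        simp [Pi.single_eq_of_ne nAW.symm, Pi.single_eq_of_ne nBW.symm]
      rw [h2 j hj1 hj2 hj3]
      simp [Pi.single_eq_of_ne hj1, Pi.single_eq_of_ne hj2, Pi.single_eq_of_ne hj3]
    have h4 : φ (Multiplicative.ofAdd v) = bas k s jA ^ v jA * bas k s jB ^ v jB * bas k s jW ^ v jW := by
      conv_lhs => rw [h3]
      rw [ofAdd_add, ofAdd_add, ofAdd_zsmul, ofAdd_zsmul, ofAdd_zsmul, map_mul, map_mul, map_zpow,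
        map_zpow, map_zpow, hφ, hφ, hφ]
    have eA : bas k s jA = Fl s 0 (k / 2) := by
      unfold bas
      rw [if_pos (by simp only [hjA]; omega)]
      congr 1
      simp only [hjA]
      omega
    have eB : bas k s jB = Fl s (k - k / 2) (k / 2) := by
      have e : (jB : ℕ) + 3 - k / 2 = k / 2 := by simp only [hjB]; omega
      unfold bas
      rw [if_neg (by simp only [hjB]; omega), if_pos (by simp only [hjB]; omega), e]
    have eW : bas k s jW = Fl s 0 k := by
      unfold bas
      rw [if_neg (by simp only [hjW]; omega), if_neg (by simp only [hjW]; omega)]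
    rw [h4, eA, eB, eW] at h1
    apply hne
    apply even_final hT h hk (m := k / 2) (by omega) h1
    rintro ⟨hA2, hB2, hW2⟩
    apply hv
    intro j
    by_cases hj1 : j = jA
    · rw [hj1]; exact hA2
    by_cases hj2 : j = jB
    · rw [hj2]; exact hB2
    by_cases hj3 : j = jW
    · rw [hj3]; exact hW2
    rw [h2 j hj1 hj2 hj3]
    exact dvd_zero _

end TF49
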