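import Pool.Agent.TF49.Main
import Pool.Agent.AF21.Roots
import Pool.Agent.AF21.Vieta
import Pool.Agent.AF21.TorusX

/-!
# [TF49-CONCL] Maps from the space of separable polynomials
-/

set_option autoImplicit false

open Set Topology

namespace TF49
open AF21
variable {k : ℕ} {Y : Type} [TopologicalSpace Y]

theorem comm_std (G : SymMap k Y) (hall : AllEq k (gen G))
    {x y : FundamentalGroup Y (G.toMap (std k))} (hx : x ∈ SClos G) (hy : y ∈ SClos G) : Commute x y := by
  have h2 : SClos G ≤ Subgroup.zpowers (gen G 0) := by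
    unfold SClos
    rw [Subgroup.closure_le]
    rintro _ ⟨i, hi, rfl⟩
    rw [hall i hi]
    exact Subgroup.mem_zpowers _
  obtain ⟨a, rfl⟩ := Subgroup.mem_zpowers_iff.1 (h2 hx)
  obtain ⟨b, rfl⟩ := Subgroup.mem_zpowers_iff.1 (h2 hy)
  exact (Commute.refl (gen G 0)).zpow_zpow a b

theorem conj_quot {x y : Y} (D : Path x y) (L L' : Path y y) :
    (L'.trans L).Homotopic
      (D.symm.trans (((D.trans (L'.trans D.symm)).trans (D.trans (L.trans D.symm))).trans D)) := by
  rw [← Path.Homotopic.Quotient.eq]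
  simp only [Path.Homotopic.Quotient.mk_trans, Path.Homotopic.Quotient.mk_symm,
    Path.Homotopic.Quotient.trans_assoc]
  rw [Path.Homotopic.Quotient.symm_trans, Path.Homotopic.Quotient.trans_refl,
    ← Path.Homotopic.Quotient.trans_assoc (Path.Homotopic.Quotient.mk D).symm
    (Path.Homotopic.Quotient.mk D), Path.Homotopic.Quotient.symm_trans,
    Path.Homotopic.Quotient.refl_trans,
    ← Path.Homotopic.Quotient.trans_assoc (Path.Homotopic.Quotient.mk D).symm
    (Path.Homotopic.Quotient.mk D), Path.Homotopic.Quotient.symm_trans,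
    Path.Homotopic.Quotient.refl_trans]

theorem conj_comm {x y : Y} (D : Path x y) (L L' : Path y y)
    (h : Commute (fp (D.trans (L.trans D.symm))) (fp (D.trans (L'.trans D.symm)))) :
    Commute (fp L) (fp L') := by
  have h1 := h.eq
  rw [← fp_trans, ← fp_trans] at h1
  have h2 := homotopic_of_fp_eq h1
  change fp L * fp L' = fp L' * fp L
  rw [← fp_trans, ← fp_trans]
  apply fp_eq
  exact ((conj_quot D L L').trans (Path.Homotopic.hcomp (Path.Homotopic.refl _)
    (Path.Homotopic.hcomp h2 (Path.Homotopic.refl _)))).trans (conj_quot D L' L).symm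

theorem conj_hat (G : SymMap k Y) {a : Conf k} {π π₀ : Equiv.Perm (Fin k)}
    (δ : Path (std k) (a.perm π₀)) (γ : Path a (a.perm π)) :
    ∃ (π' : Equiv.Perm (Fin k)) (g : Path (std k) ((std k).perm π')),
      AF21.lp G g = ((δ.map G.toMap.continuous).cast rfl (G.symm a π₀).symm).trans ((AF21.lp G γ).trans
        ((δ.map G.toMap.continuous).cast rfl (G.symm a π₀).symm).symm) := by
  have he : (a.perm π₀).perm (π₀⁻¹ * π * π₀) = (a.perm π).perm π₀ := by
    rw [perm_perm, perm_perm]
    congr 1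
    group
  refine ⟨π₀⁻¹ * π * π₀, δ.trans ((permPath γ π₀).trans
    ((permPath δ (π₀⁻¹ * π * π₀)).symm.cast he.symm rfl)), ?_⟩
  ext t
  simp only [AF21.lp, Path.cast_coe, Path.map_coe, Function.comp_apply, Path.trans_apply]
  split_ifs with h1 h2
  · rfl
  · exact G.symm _ π₀
  · exact G.symm _ (π₀⁻¹ * π * π₀)

theorem comm_all (G : SymMap k Y) (hall : AllEq k (gen G)) {a : Conf k} {π ρ : Equiv.Perm (Fin k)}
    (γ : Path a (a.perm π)) (γ' : Path a (a.perm ρ)) : Commute (cl G γ) (cl G γ') := by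
  obtain ⟨π₀, ⟨δ⟩⟩ := conf_conn a
  obtain ⟨π₁, g₁, h₁⟩ := conj_hat G δ γ
  obtain ⟨π₂, g₂, h₂⟩ := conj_hat G δ γ'
  have h3 : Commute (cl G g₁) (cl G g₂) := comm_std G hall (gen_mem G g₁) (gen_mem G g₂)
  unfold cl at h3 ⊢
  rw [h₁, h₂] at h3
  exact conj_comm _ _ _ h3

/-- the image of the fundamental group has no elements of finite order except `1`: it is commutative -/
theorem comm_of_torsionfree_U {k : ℕ} (hk : 4 < k) {Y : Type} [TopologicalSpace Y]
    (hT : TorusProp Y (2 * (k / 2) - 1)) (U : Set (Fin (k - 1) → ℂ)) (hU : U = {a | (pol k a).Separable})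
    (g : C(↥U, Y))
    (htf : ∀ (x : ↥U) (α : FundamentalGroup ↥U x) (n : ℕ), n ≠ 0 → (FundamentalGroup.map g x α) ^ n = 1 →
      FundamentalGroup.map g x α = 1)
    (x0 : ↥U) (α β : FundamentalGroup ↥U x0) :
    Commute (FundamentalGroup.map g x0 α) (FundamentalGroup.map g x0 β) := by
  subst hU
  obtain ⟨v, hvc, hv, hvs, hsep⟩ := exists_vieta (k := k) (by omega)
  -- the symmetric map
  let w : C(Conf k, ↥{a | (pol k a).Separable}) := ⟨fun q => ⟨v q, hsep q⟩, hvc.subtype_mk _⟩
  have hw : ∀ (q : Conf k) (π : Equiv.Perm (Fin k)), w (q.perm π) = w q := fun q π => Subtype.ext (hvs q π)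
  let G : SymMap k Y :=
    { toMap := g.comp w
      symm := fun q π => by
        change g (w (q.perm π)) = g (w q)
        rw [hw] }
  -- the classes of the generators are in the image
  have htfG : ∀ x ∈ SClos G, ∀ n : ℕ, n ≠ 0 → x ^ n = 1 → x = 1 := by
    have hle : SClos G ≤ (FundamentalGroup.map g (w (std k))).range := by
      unfold SClos
      rw [Subgroup.closure_le]
      rintro _ ⟨i, hi, rfl⟩
      refine ⟨fp (((tw k i hi).map w.continuous).cast rfl (hw _ _).symm), ?_⟩
      rw [gen_eq G i hi]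
      rfl
    intro x hx n hn hxn
    obtain ⟨y, rfl⟩ := hle hx
    exact htf _ y n hn hxn
  have hall : AllEq k (gen G) := allEq_gen hk hT G htfG
  obtain ⟨q0, hq0⟩ := pol_exists (by omega) x0.1 x0.2
  -- `v` of a configuration of roots is the polynomial
  have hback : ∀ (a : Fin (k - 1) → ℂ) (q : Conf k),
      pol k a = ∏ j, (Polynomial.X - Polynomial.C (q.1 j)) → v q = a := by
    intro a q hq
    apply pol_inj (by omega)
    rw [hv q, pol_sum (by omega) a q.1 hq, hq]
    simp
  have hG0 : G.toMap q0 = g x0 := by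
    change g ⟨v q0, hsep _⟩ = g x0
    congr 1
    exact Subtype.ext (hback x0.1 q0 hq0)
  -- every class comes from a path of configurations
  have key : ∀ α : FundamentalGroup ↥{a | (pol k a).Separable} x0, ∃ (π : Equiv.Perm (Fin k))
      (γ : Path q0 (q0.perm π)), FundamentalGroup.map g x0 α
        = fp ((AF21.lp G γ).cast hG0.symm hG0.symm) := by
    intro α
    obtain ⟨δ, rfl⟩ : ∃ δ : Path x0 x0, fp δ = α := by
      obtain ⟨δ, hδ⟩ := Quotient.exists_rep α
      exact ⟨δ, hδ⟩
    obtain ⟨q, hq, hqa⟩ := roots_lift (k := k)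
      ⟨fun t => (δ t).1, continuous_subtype_val.comp δ.continuous⟩ (fun t => (δ t).2) q0 (by
        simpa using hq0)
    obtain ⟨π, hπ⟩ := perm_of_prod_eq q0 (q 1) (by
      rw [← hqa 1, ← hq0]
      simp)
    refine ⟨π, ⟨q, hq, hπ⟩, ?_⟩
    have e1 : FundamentalGroup.map g x0 (fp δ) = fp (δ.map g.continuous) := rfl
    rw [e1]
    congr 1
    ext t
    change g (δ t) = G.toMap (q t)
    change g (δ t) = g ⟨v (q t), hsep _⟩
    congr 1
    exact Subtype.ext (hback _ _ (hqa t)).symm
  obtain ⟨π, γ, hγ⟩ := key α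
  obtain ⟨ρ, γ', hγ'⟩ := key β
  rw [hγ, hγ']
  have hc := comm_all G hall γ γ'
  have hcast : ∀ {y z : Y} (h : y = z) (c d : Path z z), Commute (fp c) (fp d) →
      Commute (fp (c.cast h h)) (fp (d.cast h h)) := by
    intro y z h c d hcd
    subst h
    exact hcd
  exact hcast hG0.symm _ _ hc

theorem main {k n l : ℕ} (hk : 4 < k) (hl : l + 2 ≤ 2 * (k / 2)) (hln : l ≤ n) (X : Set (Fin n → ℂ))
    (hS : ∃ S : Set (MvPolynomial (Fin n) ℂ), X = {x | ∀ f ∈ S, MvPolynomial.eval x f = 0})
    (hr : RankHyp l X) (U : Set (Fin (k - 1) → ℂ)) (hU : U = {a | (pol k a).Separable})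
    (g : C(↥U, ↥X))
    (htf : ∀ (x : ↥U) (α : FundamentalGroup ↥U x) (n : ℕ), n ≠ 0 → (FundamentalGroup.map g x α) ^ n = 1 →
      FundamentalGroup.map g x α = 1)
    (x0 : ↥U) (α β : FundamentalGroup ↥U x0) :
    Commute (FundamentalGroup.map g x0 α) (FundamentalGroup.map g x0 β) :=
  comm_of_torsionfree_U hk (torusProp_mono (torusProp_affine hln hS hr) (by omega)) U hU g htf x0 α β

end TF49
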