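import Pool.Agent.TF49.Reach
import Pool.Agent.AF21.Conn

/-!
# [TF49-HALF] Loops which consist of two half turns
-/

set_option autoImplicit false

open Set Topology

namespace TF49
open AF21
variable {k : ℕ} {Y : Type} [TopologicalSpace Y]

/-- the two halves of a path -/
theorem exists_halves {X : Type} [TopologicalSpace X] {a b : X} (γ : Path a b) :
    ∃ (c : X) (γ1 : Path a c) (γ2 : Path c b), γ = γ1.trans γ2 ∧
      (∀ t, ∃ u : unitInterval, (u : ℝ) ≤ 1 / 2 ∧ γ1 t = γ u) ∧
      (∀ t, ∃ u : unitInterval, 1 / 2 ≤ (u : ℝ) ∧ γ2 t = γ u) ∧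
      ∃ u : unitInterval, (u : ℝ) = 1 / 2 ∧ c = γ u := by
  have hm1 : ∀ t : unitInterval, (t : ℝ) / 2 ∈ Icc (0 : ℝ) 1 := fun t => by
    have h0 := t.2.1
    have h1 := t.2.2
    constructor <;> linarith
  have hm2 : ∀ t : unitInterval, (1 + (t : ℝ)) / 2 ∈ Icc (0 : ℝ) 1 := fun t => by
    have h0 := t.2.1
    have h1 := t.2.2
    constructor <;> linarith
  let c : X := γ ⟨1 / 2, by norm_num, by norm_num⟩
  let γ1 : Path a c :=
    { toFun := fun t => γ ⟨(t : ℝ) / 2, hm1 t⟩
      continuous_toFun := γ.continuous.comp (Continuous.subtype_mk (by fun_prop) _)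
      source' := by
        have e : (⟨((0 : unitInterval) : ℝ) / 2, hm1 0⟩ : unitInterval) = 0 := by
          apply Subtype.ext
          simp
        rw [e, γ.source]
      target' := by
        change _ = γ _
        congr 1 }
  let γ2 : Path c b :=
    { toFun := fun t => γ ⟨(1 + (t : ℝ)) / 2, hm2 t⟩
      continuous_toFun := γ.continuous.comp (Continuous.subtype_mk (by fun_prop) _)
      source' := by
        change _ = γ _
        congr 1
        apply Subtype.ext
        simp
      target' := by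
        have e : (⟨(1 + ((1 : unitInterval) : ℝ)) / 2, hm2 1⟩ : unitInterval) = 1 := by
          apply Subtype.ext
          simp
        rw [e, γ.target] }
  refine ⟨c, γ1, γ2, ?_, fun t => ⟨⟨(t : ℝ) / 2, hm1 t⟩, ?_, rfl⟩, fun t => ⟨⟨(1 + (t : ℝ)) / 2, hm2 t⟩, ?_, rfl⟩,
    ⟨⟨1 / 2, by norm_num, by norm_num⟩, rfl, rfl⟩⟩
  · ext t
    rw [Path.trans_apply]
    split_ifs with h
    · change γ t = γ _
      congr 1
      apply Subtype.ext
      change (t : ℝ) = 2 * (t : ℝ) / 2
      ring
    · change γ t = γ _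
      congr 1
      apply Subtype.ext
      change (t : ℝ) = (1 + (2 * (t : ℝ) - 1)) / 2
      ring
  · have h1 := t.2.2
    change (t : ℝ) / 2 ≤ 1 / 2
    linarith
  · have h1 := t.2.1
    change 1 / 2 ≤ (1 + (t : ℝ)) / 2
    linarith

/-- a relabelled configuration with increasing real parts is in `Below` -/
theorem below_of_inc {q : Conf k} (h : q ∈ Inc k) (π : Equiv.Perm (Fin k)) : q.perm π ∈ Below k := by
  intro i j hij hre
  exfalso
  have h1 : StrictMono fun j => (q.1 j).re := h
  exact (ne_of_lt hij) (π.injective (h1.injective hre))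

theorem inc_below {q : Conf k} (h : q ∈ Inc k) : q ∈ Below k := below_of_inc h 1

theorem q_half {x y : Y} (g1 : Path x y) (g2 : Path y x) (a : Path x y) :
    fp (g1.trans g2) = fp (a.trans g2) * fp (g1.trans a.symm) := by
  rw [← fp_trans]
  apply fp_eq
  rw [← Path.Homotopic.Quotient.eq]
  simp only [Path.Homotopic.Quotient.mk_trans, Path.Homotopic.Quotient.mk_symm,
    Path.Homotopic.Quotient.trans_assoc]
  rw [← Path.Homotopic.Quotient.trans_assoc (Path.Homotopic.Quotient.mk a).symm
    (Path.Homotopic.Quotient.mk a), Path.Homotopic.Quotient.symm_trans,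
    Path.Homotopic.Quotient.refl_trans]

/-- a loop of configurations consisting of two half turns with the same combinatorial type -/
theorem two_halves (G : SymMap k Y) {f : ℕ → ℕ} {x : FundamentalGroup Y (G.toMap (std k))}
    (hR : Reach G f x) (hf : ∀ i, i < k → f (f i) = i) (γ : Path (std k) (std k)) (P : ℝ → ℕ → ℂ)
    (hP : ∀ (t : unitInterval) (i : Fin k), (γ t).1 i = P t i)
    (h1 : ∀ t : ℝ, 0 ≤ t → t ≤ 1 / 2 → ∀ i j, i < j → j < k → (P t i).re = (P t j).re → (P t i).im < (P t j).im)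
    (h2 : ∀ t : ℝ, 1 / 2 ≤ t → t ≤ 1 → ∀ i j, i < j → j < k → (P t (f i)).re = (P t (f j)).re →
      (P t (f i)).im < (P t (f j)).im)
    (h3 : ∀ i j, i < j → j < k → (P (1 / 2) (f i)).re < (P (1 / 2) (f j)).re) :
    fp (γ.map G.toMap.continuous) = x * x := by
  obtain ⟨ρ, δ, hδ, hx, hρ⟩ := hR
  obtain ⟨c, γ1, γ2, hγ, hγ1, hγ2, u0, hu0, hc⟩ := exists_halves γ
  have hρρ : ρ * ρ = 1 := by
    ext i
    rw [Equiv.Perm.mul_apply, hρ, hρ, hf i i.2]
    rfl
  have hb1 : ∀ t, γ1 t ∈ Below k := by
    intro t i j hij hre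
    obtain ⟨u, hu, hu'⟩ := hγ1 t
    rw [hu', hP, hP] at hre ⊢
    exact h1 u u.2.1 hu i j hij j.2 hre
  have hb2 : ∀ t, (γ2 t).perm ρ ∈ Below k := by
    intro t i j hij hre
    obtain ⟨u, hu, hu'⟩ := hγ2 t
    change ((γ2 t).1 (ρ i)).re = ((γ2 t).1 (ρ j)).re at hre
    change ((γ2 t).1 (ρ i)).im < ((γ2 t).1 (ρ j)).im
    rw [hu', hP, hP, hρ, hρ] at hre ⊢
    exact h2 u hu u.2.2 i j hij j.2 hre
  have hinc : c.perm ρ ∈ Inc k := by
    intro i j hij
    change (c.1 (ρ i)).re < (c.1 (ρ j)).re
    rw [hc, hP, hP, hρ, hρ, hu0]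
    exact h3 i j hij j.2
  have hreg : Reg c := by
    intro i j hij
    have h4 : StrictMono fun j => ((c.perm ρ).1 j).re := hinc
    have h5 : (fun j => ((c.perm ρ).1 j).re) (ρ.symm i) = (fun j => ((c.perm ρ).1 j).re) (ρ.symm j) := by
      change (c.1 (ρ (ρ.symm i))).re = (c.1 (ρ (ρ.symm j))).re
      rw [Equiv.apply_symm_apply, Equiv.apply_symm_apply]
      exact hij
    exact ρ.symm.injective (h4.injective h5)
  obtain ⟨π, α, hα⟩ := exists_sort c hreg
  have hπ : π = ρ := by
    apply sort_unique _ hinc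
    have := hα 1
    rwa [α.target] at this
  subst hπ
  -- the path `std → c → std.perm π`
  have e1 : (c.perm π).perm π = c := by rw [perm_perm, hρρ, perm_one]
  let p1 : Path (std k) ((std k).perm π) := γ1.trans ((permPath α π).symm.cast e1.symm rfl)
  have hp1 : ∀ t, p1 t ∈ Below k := by
    intro t
    change (γ1.trans ((permPath α π).symm.cast e1.symm rfl)) t ∈ Below k
    rw [Path.trans_apply]
    split_ifs with h
    · exact hb1 _
    · exact below_of_inc (hα _) π
  let p2 : Path (std k) ((std k).perm π) := α.trans (permPath γ2 π)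
  have hp2 : ∀ t, p2 t ∈ Below k := by
    intro t
    change (α.trans (permPath γ2 π)) t ∈ Below k
    rw [Path.trans_apply]
    split_ifs with h
    · exact inc_below (hα _)
    · exact hb2 _
  have c1 : cl G p1 = x := by
    rw [← hx]
    exact cl_eq_of_below G rfl _ _ hp1 hδ
  have c2 : cl G p2 = x := by
    rw [← hx]
    exact cl_eq_of_below G rfl _ _ hp2 hδ
  -- in `Y`
  let a : Path (G.toMap (std k)) (G.toMap c) := (α.map G.toMap.continuous).cast rfl (G.symm c π).symm
  have k1 : AF21.lp G p1 = (γ1.map G.toMap.continuous).trans a.symm := by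
    ext t
    simp only [AF21.lp, p1, a, Path.cast_coe, Path.map_coe, Function.comp_apply, Path.trans_apply]
    split_ifs with h
    · rfl
    · exact G.symm _ π
  have k2 : AF21.lp G p2 = a.trans (γ2.map G.toMap.continuous) := by
    ext t
    simp only [AF21.lp, p2, a, Path.cast_coe, Path.map_coe, Function.comp_apply, Path.trans_apply]
    split_ifs with h
    · rfl
    · exact G.symm _ π
  have k0 : γ.map G.toMap.continuous = (γ1.map G.toMap.continuous).trans (γ2.map G.toMap.continuous) := by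
    rw [hγ, Path.map_trans]
  rw [k0, q_half _ _ a, ← k1, ← k2]
  change cl G p2 * cl G p1 = x * x
  rw [c1, c2]

end TF49
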