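import Pool.Agent.TF49.Torus
import Pool.Agent.AF21.Gen

/-!
# [TF49-MAIN] All classes commute
-/

set_option autoImplicit false

open Set Topology

namespace TF49
open AF21
variable {k : ℕ} {Y : Type} [TopologicalSpace Y]

theorem braidFam_gen (G : SymMap k Y) : BraidFam k (gen G) :=
  ⟨fun i h => gen_braid G i h, fun i j hij hj => gen_comm G i j hij hj⟩

/-- the torus property is inherited by larger dimensions -/
theorem torusProp_mono {n n' : ℕ} (h : TorusProp Y n) (hn : n ≤ n') : TorusProp Y n' := by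
  intro H hH p hp
  let e : (Fin n → ℝ) → (Fin n' → ℝ) := fun y j => if h : (j : ℕ) < n then y ⟨j, h⟩ else 0
  have he : Continuous e := by
    refine continuous_pi fun j => ?_
    by_cases h : (j : ℕ) < n
    · simp only [e, dif_pos h]
      exact continuous_apply _
    · simp only [e, dif_neg h]
      exact continuous_const
  let E : (Fin n → ℤ) → (Fin n' → ℤ) := fun m j => if h : (j : ℕ) < n then m ⟨j, h⟩ else 0
  let H' : C(Fin n → ℝ, Y) := H.comp ⟨e, he⟩
  have hH' : Per H' := by
    intro y m
    change H (e fun j => y j + m j) = H (e y)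
    rw [← hH (e y) (E m)]
    congr 1
    funext j
    by_cases h : (j : ℕ) < n
    · simp only [e, E, dif_pos h]
    · simp only [e, E, dif_neg h]
      simp
  obtain ⟨m, hm, hnull⟩ := h H' hH' p hp
  refine ⟨E m, fun hall => hm fun j => ?_, ?_⟩
  · have h1 := hall ⟨j, by omega⟩
    simp only [E] at h1
    rw [dif_pos j.2] at h1
    exact h1
  · have h0 : H 0 = H' 0 := by
      change H 0 = H (e 0)
      congr 1
      funext j
      by_cases h : (j : ℕ) < n
      · simp only [e, dif_pos h]
        rfl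
      · simp only [e, dif_neg h]
        rfl
    have key : segLoop H hH (E m) = (segLoop H' hH' m).cast h0 h0 := by
      ext t
      change H (fun j => (t : ℝ) * (E m j : ℤ)) = H (e fun j => (t : ℝ) * (m j : ℤ))
      congr 1
      funext j
      by_cases h : (j : ℕ) < n
      · simp only [e, E, dif_pos h]
      · simp only [e, E, dif_neg h]
        simp
    have hcast : ∀ {y z : Y} (h : y = z) (c : Path z z), c.Homotopic (Path.refl z) →
        (c.cast h h).Homotopic (Path.refl y) := by
      intro y z h c hc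
      subst h
      exact hc
    rw [key]
    exact hcast h0 _ hnull

/-- homomorphisms from `ℤ^n` with prescribed values on the basis have values in the subgroup -/
theorem hom_mem {Γ : Type} [Group Γ] {n : ℕ} (φ : Multiplicative (Fin n → ℤ) →* Γ) (S : Subgroup Γ)
    (h : ∀ j, φ (Multiplicative.ofAdd (Pi.single j 1)) ∈ S) (v : Fin n → ℤ) :
    φ (Multiplicative.ofAdd v) ∈ S := by
  let T : AddSubgroup (Fin n → ℤ) :=
    { carrier := {w | φ (Multiplicative.ofAdd w) ∈ S}
      zero_mem' := by
        change φ 1 ∈ S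
        rw [map_one]
        exact S.one_mem
      add_mem' := fun {a b} ha hb => by
        change φ (Multiplicative.ofAdd a * Multiplicative.ofAdd b) ∈ S
        rw [map_mul]
        exact S.mul_mem ha hb
      neg_mem' := fun {a} ha => by
        change φ (Multiplicative.ofAdd a)⁻¹ ∈ S
        rw [map_inv]
        exact S.inv_mem ha }
  have h1 : (∑ j, v j • (Pi.single j (1 : ℤ) : Fin n → ℤ)) = v := by
    funext i
    simp [Finset.sum_apply, Pi.single_apply]
  have h2 : v ∈ T := by
    rw [← h1]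
    exact AddSubgroup.sum_mem _ fun j _ => AddSubgroup.zsmul_mem _ (h j) _
  exact h2

theorem map_up {Γ Γ' : Type} [Group Γ] [Group Γ'] (f : Γ →* Γ') (n : ℕ) (t : ℕ → Γ) :
    f (up n t) = up n (fun i => f (t i)) := by
  induction n with
  | zero => simp
  | succ n ih => rw [up_succ, up_succ, map_mul, ih]

theorem map_D {Γ Γ' : Type} [Group Γ] [Group Γ'] (f : Γ →* Γ') (n : ℕ) (t : ℕ → Γ) :
    f (D n t) = D n (fun i => f (t i)) := by
  induction n with
  | zero => simp
  | succ n ih => rw [D_succ, D_succ, map_mul, ih, map_up]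

theorem map_Fl {Γ Γ' : Type} [Group Γ] [Group Γ'] (f : Γ →* Γ') (s : ℕ → Γ) (a n : ℕ) :
    f (Fl s a n) = Fl (fun i => f (s i)) a n := by
  unfold Fl Hf
  rw [map_mul, map_D]

theorem map_bas {Γ Γ' : Type} [Group Γ] [Group Γ'] (f : Γ →* Γ') (k : ℕ) (s : ℕ → Γ) (j : ℕ) :
    f (bas k s j) = bas k (fun i => f (s i)) j := by
  unfold bas
  split_ifs <;> rw [map_Fl]

/-- the algebraic part in a subgroup -/
theorem alg_sub {Γ : Type} [Group Γ] (S : Subgroup Γ) (hS : ∀ x ∈ S, ∀ n : ℕ, n ≠ 0 → x ^ n = 1 → x = 1)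
    {s : ℕ → Γ} (hs : ∀ i, s i ∈ S) (h : BraidFam k s) (hk : 4 < k)
    (φ : Multiplicative (Fin (2 * (k / 2) - 1) → ℤ) →* Γ)
    (hφ : ∀ j, φ (Multiplicative.ofAdd (Pi.single j 1)) = bas k s j) (v : Fin (2 * (k / 2) - 1) → ℤ)
    (hv : ¬ ∀ j, (2 : ℤ) ∣ v j) (h1 : φ (Multiplicative.ofAdd v) = 1) : AllEq k s := by
  let s' : ℕ → S := fun i => ⟨s i, hs i⟩
  have hbas : ∀ j, ((bas k s' j : S) : Γ) = bas k s j := fun j => map_bas S.subtype k s' j
  have h' : BraidFam k s' := ⟨fun i hi => Subtype.ext (h.braid i hi),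
    fun i j hij hj => Subtype.ext (h.comm i j hij hj)⟩
  have hmem : ∀ x, φ x ∈ S := fun x => hom_mem φ S (fun j => by rw [hφ, ← hbas]; exact (bas k s' j).2) x
  have hT : TFree S := by
    intro x n hn hx
    apply Subtype.ext
    apply hS x x.2 n hn
    have := congrArg Subtype.val hx
    exact this
  have key := alg_main hT h' hk (φ.codRestrict S hmem) (fun j => Subtype.ext (by
    rw [hbas]
    exact hφ j)) v hv (Subtype.ext h1)
  intro i hi
  exact congrArg Subtype.val (key i hi)

theorem gen_mem_SClos (G : SymMap k Y) (i : ℕ) : gen G i ∈ SClos G := by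
  by_cases h : i + 1 < k
  · exact Subgroup.subset_closure ⟨i, h, rfl⟩
  · have e : gen G i = 1 := dif_neg h
    rw [e]
    exact Subgroup.one_mem _

/-- transport of the relation along the equality of base points -/
theorem allEq_aux {n : ℕ} (hn : n = 2 * (k / 2) - 1) (H : C(Fin n → ℝ, Y)) (hH : Per H) {x0 : Y}
    (h0 : x0 = H 0) (s : ℕ → FundamentalGroup Y x0) (hbf : BraidFam k s) (hk : 4 < k)
    (S : Subgroup (FundamentalGroup Y x0)) (hS : ∀ x ∈ S, ∀ n : ℕ, n ≠ 0 → x ^ n = 1 → x = 1)
    (hs : ∀ i, s i ∈ S) (v : Fin n → ℤ) (hv : ¬ ∀ j, (2 : ℤ) ∣ v j)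
    (hnull : (segLoop H hH v).Homotopic (Path.refl _))
    (hbas : ∀ j : Fin n, bas k s j = fp ((segLoop H hH (Pi.single j 1)).cast h0 h0)) : AllEq k s := by
  subst hn
  subst h0
  refine alg_sub S hS hs hbf hk (segHom H hH) (fun j => ?_) v hv ?_
  · rw [hbas]
    rfl
  · change fp (segLoop H hH v) = 1
    rw [fp_eq hnull, fp_refl]

theorem allEq_gen (hk : 4 < k) (hT : TorusProp Y (2 * (k / 2) - 1)) (G : SymMap k Y)
    (htf : ∀ x ∈ SClos G, ∀ n : ℕ, n ≠ 0 → x ^ n = 1 → x = 1) : AllEq k (gen G) := by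
  let H : C(Fin (2 * (k / 2) - 1) → ℝ, Y) := G.toMap.comp (torus k (2 * (k / 2) - 1))
  have hH : Per H := fun y m => by
    change G.toMap (torus k _ _) = G.toMap (torus k _ _)
    rw [torus_per]
  obtain ⟨v, hv, hnull⟩ := hT H hH 2 Nat.prime_two
  have h0 : G.toMap (std k) = H 0 := by
    change _ = G.toMap (torus k _ 0)
    rw [torus_zero]
  refine allEq_aux rfl H hH h0 (gen G) (braidFam_gen G) hk (SClos G) htf (gen_mem_SClos G) v
    (by exact_mod_cast hv) hnull fun j => ?_
  -- the loop of configurations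
  let γ : Path (std k) (std k) :=
    { toFun := fun t => torus k (2 * (k / 2) - 1)
        (fun i => (t : ℝ) * ((Pi.single j (1 : ℤ) : Fin (2 * (k / 2) - 1) → ℤ) i : ℤ))
      continuous_toFun := (torus k _).continuous.comp (by fun_prop)
      source' := by
        rw [← torus_zero k (2 * (k / 2) - 1)]
        congr 1
        funext i
        simp
      target' := by
        rw [← torus_zero k (2 * (k / 2) - 1), ← torus_per k _ 0 (Pi.single j 1)]
        congr 1
        funext i
        simp }
  rw [← torus_class G j γ fun t => rfl]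
  congr 1

end TF49
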