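import Pool.Agent.TF49.Alg2
import Pool.Agent.AF21.BraidRel

/-!
# [TF49-REACH] The half twist of a block is a path in `Below`
-/

set_option autoImplicit false

open Set Topology

namespace TF49
open AF21
variable {k : ℕ} {Y : Type} [TopologicalSpace Y]

/-- a path in `Below` from the standard configuration to the relabelling with values `f`, with class `x` -/
def Reach (G : SymMap k Y) (f : ℕ → ℕ) (x : FundamentalGroup Y (G.toMap (std k))) : Prop :=
  ∃ (π : Equiv.Perm (Fin k)) (δ : Path (std k) ((std k).perm π)), (∀ t, δ t ∈ Below k) ∧ cl G δ = x ∧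
    ∀ i : Fin k, ((π i : Fin k) : ℕ) = f i

theorem Reach.congr {G : SymMap k Y} {f f' : ℕ → ℕ} {x : FundamentalGroup Y (G.toMap (std k))}
    (h : Reach G f x) (hf : ∀ i, i < k → f i = f' i) : Reach G f' x := by
  obtain ⟨π, δ, h1, h2, h3⟩ := h
  exact ⟨π, δ, h1, h2, fun i => by rw [h3, hf i i.2]⟩

theorem std_below (k : ℕ) : std k ∈ Below k := by
  intro i j hij hre
  exfalso
  have h1 : ((i : ℕ) : ℝ) = ((j : ℕ) : ℝ) := by simpa [std] using hre
  have h2 : (i : ℕ) = j := by exact_mod_cast h1
  exact absurd (Fin.ext h2) (ne_of_lt hij)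

theorem fp_const {x : Y} (γ : Path x x) (h : ∀ t, γ t = x) : fp γ = 1 := by
  have e : γ = Path.refl x := by
    ext t
    exact h t
  rw [e, fp_refl]

theorem reach_id (G : SymMap k Y) : Reach G (fun i => i) 1 := by
  refine ⟨1, Path.refl (std k), fun t => std_below k, ?_, fun i => rfl⟩
  exact fp_const _ fun t => rfl

theorem Reach.step {G : SymMap k Y} {f : ℕ → ℕ} {x : FundamentalGroup Y (G.toMap (std k))}
    (h : Reach G f x) {j u v : ℕ} (hj : j + 1 < k) (huv : u < v) (hv : v < k) (hfu : f u = j)
    (hfv : f v = j + 1) : Reach G (fun i => if f i = j then j + 1 else if f i = j + 1 then j else f i)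
      (gen G j * x) := by
  obtain ⟨π, δ, h1, h2, h3⟩ := h
  have eu : π.symm ⟨j, by omega⟩ = ⟨u, by omega⟩ := by
    rw [Equiv.symm_apply_eq]
    apply Fin.ext
    rw [h3]
    exact hfu.symm
  have ev : π.symm ⟨j + 1, hj⟩ = ⟨v, hv⟩ := by
    rw [Equiv.symm_apply_eq]
    apply Fin.ext
    rw [h3]
    exact hfv.symm
  obtain ⟨δ', h4, h5⟩ := below_step G δ h1 j hj (by rw [eu, ev, Fin.lt_def]; exact huv)
  refine ⟨_, δ', h4, by rw [h5, h2], fun i => ?_⟩
  rw [Equiv.Perm.mul_apply, Equiv.swap_apply_def]
  beta_reduce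
  have h6 := h3 i
  by_cases h7 : f i = j
  · rw [if_pos h7, if_pos (Fin.ext (h6.trans h7))]
  · rw [if_neg h7, if_neg (fun e => h7 (by rw [← h6, e]))]
    by_cases h8 : f i = j + 1
    · rw [if_pos h8, if_pos (Fin.ext (h6.trans h8))]
    · rw [if_neg h8, if_neg (fun e => h8 (by rw [← h6, e]))]
      exact h6

/-- reversal of the block `a, ..., a+n-1` -/
def revF (a n i : ℕ) : ℕ := if a ≤ i ∧ i < a + n then 2 * a + n - 1 - i else i

/-- the block of `n` strands reversed, the label `a + n` at the position `a + i` -/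
def midF (a n i x : ℕ) : ℕ :=
  if a ≤ x ∧ x < a + n then (if 2 * a + n - 1 - x < a + i then 2 * a + n - 1 - x else 2 * a + n - x)
  else if x = a + n then a + i else x

theorem reach_mid (G : SymMap k Y) {a n : ℕ} (h : a + n < k)
    (hR : Reach G (revF a n) (D n (fun i => gen G (a + i)))) (d : ℕ) (hd : d ≤ n) :
    Reach G (midF a n (n - d)) ((up (n - d) (fun i => gen G (a + i)))⁻¹ * up n (fun i => gen G (a + i)) *
      D n (fun i => gen G (a + i))) := by
  induction d with
  | zero =>
    rw [Nat.sub_zero, inv_mul_cancel, one_mul]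
    refine hR.congr fun x hx => ?_
    unfold revF midF
    split_ifs <;> omega
  | succ d ih =>
    have h1 := ih (by omega)
    have h2 := h1.step (j := a + (n - (d + 1))) (u := a + n - 1 - (n - (d + 1))) (v := a + n) (by omega) (by omega) h
      (by unfold midF; split_ifs <;> omega) (by unfold midF; split_ifs <;> omega)
    have e : gen G (a + (n - (d + 1))) * ((up (n - d) (fun i => gen G (a + i)))⁻¹ *
        up n (fun i => gen G (a + i)) * D n (fun i => gen G (a + i))) =
        (up (n - (d + 1)) (fun i => gen G (a + i)))⁻¹ * up n (fun i => gen G (a + i)) *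
          D n (fun i => gen G (a + i)) := by
      obtain ⟨i, hi⟩ : ∃ i, n - d = i + 1 := ⟨n - d - 1, by omega⟩
      have hi' : n - (d + 1) = i := by omega
      rw [hi, hi', up_succ]
      group
    rw [e] at h2
    refine h2.congr fun x hx => ?_
    unfold midF
    split_ifs <;> omega

theorem reach_rev (G : SymMap k Y) (a n : ℕ) (h : a + n ≤ k) :
    Reach G (revF a n) (Hf (gen G) a n) := by
  unfold Hf
  induction n with
  | zero =>
    rw [D_zero]
    refine (reach_id G).congr fun x hx => ?_
    unfold revF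
    split_ifs <;> omega
  | succ n ih =>
    have h1 := reach_mid G (a := a) (n := n) (by omega) (ih (by omega)) n le_rfl
    rw [Nat.sub_self, up_zero, inv_one, one_mul] at h1
    rw [D_succ]
    refine h1.congr fun x hx => ?_
    unfold revF midF
    split_ifs <;> omega

end TF49
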