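import Pool.Agent.TF49.Half

/-!
# [TF49-ROT] Full rotations of a block are full twists
-/

set_option autoImplicit false

open Set Topology

namespace TF49
open AF21
variable {k : ℕ} {Y : Type} [TopologicalSpace Y]

/-- `exp (2 π i t)` -/
noncomputable def cis (t : ℝ) : ℂ := Complex.exp ((2 * Real.pi * t : ℝ) * Complex.I)

theorem cis_re (t : ℝ) : (cis t).re = Real.cos (2 * Real.pi * t) := by
  unfold cis
  exact Complex.exp_ofReal_mul_I_re _

theorem cis_im (t : ℝ) : (cis t).im = Real.sin (2 * Real.pi * t) := by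
  unfold cis
  exact Complex.exp_ofReal_mul_I_im _

theorem cis_zero : cis 0 = 1 := by
  unfold cis
  simp

theorem norm_cis (t : ℝ) : ‖cis t‖ = 1 := by
  unfold cis
  exact Complex.norm_exp_ofReal_mul_I _

theorem cis_ne_zero (t : ℝ) : cis t ≠ 0 := by
  intro h
  have := norm_cis t
  rw [h, norm_zero] at this
  norm_num at this

theorem cis_add_int (t : ℝ) (m : ℤ) : cis (t + m) = cis t := by
  unfold cis
  have h : (((2 * Real.pi * (t + m) : ℝ) : ℂ)) * Complex.I =
      ((2 * Real.pi * t : ℝ) : ℂ) * Complex.I + m * (2 * Real.pi * Complex.I) := by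
    push_cast
    ring
  rw [h, Complex.exp_add, Complex.exp_int_mul_two_pi_mul_I, mul_one]

theorem continuous_cis : Continuous cis := by
  unfold cis
  fun_prop

theorem cis_first {t : ℝ} (h0 : 0 ≤ t) (h1 : t ≤ 1 / 2) (hc : (cis t).re = 0) : (cis t).im = 1 := by
  have h2 : 0 ≤ (cis t).im := by
    rw [cis_im]
    apply Real.sin_nonneg_of_nonneg_of_le_pi
    · have := Real.pi_pos
      positivity
    · have := Real.pi_pos
      nlinarith
  have h3 := Complex.sq_norm (cis t)
  rw [norm_cis, Complex.normSq_apply, hc] at h3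
  have h4 : ((cis t).im - 1) * ((cis t).im + 1) = 0 := by ring_nf; linarith
  rcases mul_eq_zero.1 h4 with h5 | h5 <;> linarith

theorem cis_second {t : ℝ} (h0 : 1 / 2 ≤ t) (h1 : t ≤ 1) (hc : (cis t).re = 0) : (cis t).im = -1 := by
  have h2 : (cis t).im ≤ 0 := by
    rw [cis_im]
    have e : Real.sin (2 * Real.pi * t) = - Real.sin (2 * Real.pi * t - Real.pi) := by
      rw [Real.sin_sub_pi, neg_neg]
    rw [e, neg_nonpos]
    apply Real.sin_nonneg_of_nonneg_of_le_pi
    · have := Real.pi_pos
      nlinarith
    · have := Real.pi_pos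
      nlinarith
  have h3 := Complex.sq_norm (cis t)
  rw [norm_cis, Complex.normSq_apply, hc] at h3
  have h4 : ((cis t).im - 1) * ((cis t).im + 1) = 0 := by ring_nf; linarith
  rcases mul_eq_zero.1 h4 with h5 | h5 <;> linarith

theorem cis_half : cis (1 / 2) = -1 := by
  unfold cis
  have h : ((2 * Real.pi * (1 / 2) : ℝ) : ℂ) = (Real.pi : ℂ) := by
    push_cast
    ring
  rw [h, Complex.exp_pi_mul_I]

/-- rotation of the block `a, ..., a+n-1` about `C` -/
noncomputable def rot (C : ℝ) (a n : ℕ) (t : ℝ) (i : ℕ) : ℂ :=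
  if a ≤ i ∧ i < a + n then (C : ℂ) + (((i : ℝ) - C : ℝ) : ℂ) * cis t else (i : ℂ)

theorem rot_in {C : ℝ} {a n i : ℕ} (h : a ≤ i ∧ i < a + n) (t : ℝ) :
    (rot C a n t i).re = C + ((i : ℝ) - C) * (cis t).re ∧ (rot C a n t i).im = ((i : ℝ) - C) * (cis t).im := by
  unfold rot
  rw [if_pos h]
  constructor
  · rw [Complex.add_re, Complex.ofReal_re, Complex.re_ofReal_mul]
  · rw [Complex.add_im, Complex.ofReal_im, Complex.im_ofReal_mul, zero_add]

theorem rot_out {C : ℝ} {a n i : ℕ} (h : ¬ (a ≤ i ∧ i < a + n)) (t : ℝ) : rot C a n t i = (i : ℂ) := by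
  unfold rot
  rw [if_neg h]

theorem rot_bound {C R : ℝ} {a n i : ℕ} (hi : |(i : ℝ) - C| ≤ R) (h : a ≤ i ∧ i < a + n) (t : ℝ) :
    C - R ≤ (rot C a n t i).re ∧ (rot C a n t i).re ≤ C + R := by
  rw [(rot_in h t).1]
  have h1 : |(cis t).re| ≤ 1 := by
    rw [← norm_cis t]
    exact Complex.abs_re_le_norm _
  have h2 : |((i : ℝ) - C) * (cis t).re| ≤ R := by
    rw [abs_mul]
    calc |(i : ℝ) - C| * |(cis t).re| ≤ |(i : ℝ) - C| * 1 :=
          mul_le_mul_of_nonneg_left h1 (abs_nonneg _)
      _ ≤ R := by rw [mul_one]; exact hi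
  have h3 := abs_le.1 h2
  constructor <;> linarith

theorem rot_class (G : SymMap k Y) {C R : ℝ} {a n : ℕ} (han : a + n ≤ k)
    (hin : ∀ i : ℕ, a ≤ i → i < a + n → |(i : ℝ) - C| ≤ R) (hl : ∀ j : ℕ, j < a → (j : ℝ) < C - R)
    (hr : ∀ j : ℕ, a + n ≤ j → j < k → C + R < (j : ℝ)) (γ : Path (std k) (std k))
    (hP : ∀ (t : unitInterval) (i : Fin k), (γ t).1 i = rot C a n t i) :
    fp (γ.map G.toMap.continuous) = Fl (gen G) a n := by
  apply two_halves G (reach_rev G a n han) _ γ (fun t i => rot C a n t i) hP
  · -- first half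
    intro t h0 h1 i j hij hj hre

    by_cases hi' : a ≤ i ∧ i < a + n
    · by_cases hj' : a ≤ j ∧ j < a + n
      · rw [(rot_in hi' t).1, (rot_in hj' t).1] at hre
        rw [(rot_in hi' t).2, (rot_in hj' t).2]
        have hij' : (i : ℝ) < j := by exact_mod_cast hij
        have hc : (cis t).re = 0 := by
          have : ((j : ℝ) - i) * (cis t).re = 0 := by linarith
          rcases mul_eq_zero.1 this with h | h
          · linarith
          · exact h
        rw [cis_first h0 h1 hc]
        linarith
      · exfalso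
        rw [rot_out hj' t, Complex.natCast_re] at hre
        have h2 := (rot_bound (hin i hi'.1 hi'.2) hi' t).2
        have h3 := hr j (by omega) hj
        linarith
    · by_cases hj' : a ≤ j ∧ j < a + n
      · exfalso
        rw [rot_out hi' t, Complex.natCast_re] at hre
        have h2 := (rot_bound (hin j hj'.1 hj'.2) hj' t).1
        have h3 := hl i (by omega)
        linarith
      · exfalso
        rw [rot_out hi' t, rot_out hj' t, Complex.natCast_re, Complex.natCast_re] at hre
        have : i = j := by exact_mod_cast hre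
        omega
  · -- second half
    intro t h0 h1 i j hij hj hre

    by_cases hi' : a ≤ i ∧ i < a + n
    · have fi : revF a n i = 2 * a + n - 1 - i := if_pos hi'
      have hi2 : a ≤ 2 * a + n - 1 - i ∧ 2 * a + n - 1 - i < a + n := by omega
      by_cases hj' : a ≤ j ∧ j < a + n
      · have fj : revF a n j = 2 * a + n - 1 - j := if_pos hj'
        have hj2 : a ≤ 2 * a + n - 1 - j ∧ 2 * a + n - 1 - j < a + n := by omega
        have hij' : ((2 * a + n - 1 - j : ℕ) : ℝ) < ((2 * a + n - 1 - i : ℕ) : ℝ) := by
          exact_mod_cast (by omega : 2 * a + n - 1 - j < 2 * a + n - 1 - i)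
        rw [fi, fj, (rot_in hi2 t).1, (rot_in hj2 t).1] at hre
        rw [fi, fj, (rot_in hi2 t).2, (rot_in hj2 t).2]
        have hc : (cis t).re = 0 := by
          have : (((2 * a + n - 1 - j : ℕ) : ℝ) - ((2 * a + n - 1 - i : ℕ) : ℝ)) * (cis t).re = 0 := by
            linarith
          rcases mul_eq_zero.1 this with h | h
          · linarith
          · exact h
        rw [cis_second h0 h1 hc]
        linarith
      · exfalso
        have fj : revF a n j = j := if_neg hj'
        rw [fi, fj, rot_out hj' t, Complex.natCast_re] at hre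
        have h2 := (rot_bound (hin _ hi2.1 hi2.2) hi2 t).2
        have h3 := hr j (by omega) hj
        linarith
    · have fi : revF a n i = i := if_neg hi'
      by_cases hj' : a ≤ j ∧ j < a + n
      · exfalso
        have fj : revF a n j = 2 * a + n - 1 - j := if_pos hj'
        have hj2 : a ≤ 2 * a + n - 1 - j ∧ 2 * a + n - 1 - j < a + n := by omega
        rw [fi, fj, rot_out hi' t, Complex.natCast_re] at hre
        have h2 := (rot_bound (hin _ hj2.1 hj2.2) hj2 t).1
        have h3 := hl i (by omega)
        linarith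
      · exfalso
        have fj : revF a n j = j := if_neg hj'
        rw [fi, fj, rot_out hi' t, rot_out hj' t, Complex.natCast_re, Complex.natCast_re] at hre
        have : i = j := by exact_mod_cast hre
        omega
  · -- the middle
    intro i j hij hj

    have hre : (cis (1 / 2)).re = -1 := by rw [cis_half]; simp
    by_cases hi' : a ≤ i ∧ i < a + n
    · have fi : revF a n i = 2 * a + n - 1 - i := if_pos hi'
      have hi2 : a ≤ 2 * a + n - 1 - i ∧ 2 * a + n - 1 - i < a + n := by omega
      by_cases hj' : a ≤ j ∧ j < a + n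
      · have fj : revF a n j = 2 * a + n - 1 - j := if_pos hj'
        have hj2 : a ≤ 2 * a + n - 1 - j ∧ 2 * a + n - 1 - j < a + n := by omega
        have hij' : ((2 * a + n - 1 - j : ℕ) : ℝ) < ((2 * a + n - 1 - i : ℕ) : ℝ) := by
          exact_mod_cast (by omega : 2 * a + n - 1 - j < 2 * a + n - 1 - i)
        rw [fi, fj, (rot_in hi2 _).1, (rot_in hj2 _).1, hre]
        linarith
      · have fj : revF a n j = j := if_neg hj'
        rw [fi, fj, rot_out hj' _, Complex.natCast_re]
        have h2 := (rot_bound (hin _ hi2.1 hi2.2) hi2 (1 / 2)).2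
        have h3 := hr j (by omega) hj
        linarith
    · have fi : revF a n i = i := if_neg hi'
      by_cases hj' : a ≤ j ∧ j < a + n
      · have fj : revF a n j = 2 * a + n - 1 - j := if_pos hj'
        have hj2 : a ≤ 2 * a + n - 1 - j ∧ 2 * a + n - 1 - j < a + n := by omega
        rw [fi, fj, rot_out hi' _, Complex.natCast_re]
        have h2 := (rot_bound (hin _ hj2.1 hj2.2) hj2 (1 / 2)).1
        have h3 := hl i (by omega)
        linarith
      · have fj : revF a n j = j := if_neg hj'
        rw [fi, fj, rot_out hi' _, rot_out hj' _, Complex.natCast_re, Complex.natCast_re]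
        exact_mod_cast hij
  · -- involution
    intro i hi
    unfold revF
    split_ifs <;> omega

end TF49
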