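import Pool.Agent.TF49.Rot
import Pool.Agent.TF49.AlgMain
import Pool.Agent.AF21.SegHom

/-!
# [TF49-TORUS] The torus of nested rotations in two clusters
-/

set_option autoImplicit false

open Set Topology

namespace TF49
open AF21
variable {k : ℕ} {Y : Type} [TopologicalSpace Y]

/-- the sum of the coordinates with `c` -/
def lin {n : ℕ} (c : ℕ → Prop) [DecidablePred c] (y : Fin n → ℝ) : ℝ := ∑ j : Fin n, if c j then y j else 0

theorem continuous_lin {n : ℕ} (c : ℕ → Prop) [DecidablePred c] : Continuous (lin (n := n) c) := by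
  unfold lin
  refine continuous_finsetSum _ fun j _ => ?_
  split_ifs
  · exact continuous_apply j
  · exact continuous_const

theorem lin_zero {n : ℕ} (c : ℕ → Prop) [DecidablePred c] : lin c (0 : Fin n → ℝ) = 0 := by
  unfold lin
  simp

theorem cis_lin_add {n : ℕ} (c : ℕ → Prop) [DecidablePred c] (y : Fin n → ℝ) (m : Fin n → ℤ) :
    cis (lin c (fun j => y j + m j)) = cis (lin c y) := by
  have h : lin c (fun j => y j + m j) = lin c y + ((∑ j : Fin n, if c j then m j else 0 : ℤ) : ℝ) := by
    unfold lin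
    push_cast
    rw [← Finset.sum_add_distrib]
    refine Finset.sum_congr rfl fun j _ => ?_
    split_ifs <;> simp
  rw [h, cis_add_int]

theorem lin_single {n : ℕ} (c : ℕ → Prop) [DecidablePred c] (t : ℝ) (j : Fin n) :
    lin c (fun i => t * ((Pi.single j (1 : ℤ) : Fin n → ℤ) i : ℤ)) = if c j then t else 0 := by
  unfold lin
  rw [Finset.sum_eq_single j]
  · beta_reduce
    rw [Pi.single_eq_same, Int.cast_one, mul_one]
  · intro i _ hi
    beta_reduce
    rw [Pi.single_eq_of_ne hi, Int.cast_zero, mul_zero, ite_self]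
  · intro h
    exact absurd (Finset.mem_univ j) h

/-- the parameter `j` rotates the point `i` -/
def cnd (k i j : ℕ) : Prop :=
  (j + 1 < k / 2 ∧ i ≤ j + 1) ∨ (¬ j + 1 < k / 2 ∧ j + 2 < 2 * (k / 2) ∧ k ≤ i + (j + 3 - k / 2))

/-- the parameter `j` rotates everything -/
def cnw (k j : ℕ) : Prop := j + 2 = 2 * (k / 2)

instance (k i : ℕ) : DecidablePred (cnd k i) := fun j => by unfold cnd; infer_instance
instance (k : ℕ) : DecidablePred (cnw k) := fun j => by unfold cnw; infer_instance

/-- positions of the points -/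
noncomputable def pos {n : ℕ} (k : ℕ) (y : Fin n → ℝ) (i : ℕ) : ℂ :=
  cis (lin (cnw k) y) * (if 2 * i < k then (i : ℂ) * cis (lin (cnd k i) y)
    else ((k : ℂ) - 1) + ((i : ℂ) - ((k : ℂ) - 1)) * cis (lin (cnd k i) y))

theorem continuous_pos {n : ℕ} (k i : ℕ) : Continuous fun y : Fin n → ℝ => pos k y i := by
  have h1 : Continuous fun y : Fin n → ℝ => cis (lin (cnw k) y) := continuous_cis.comp (continuous_lin _)
  have h2 : Continuous fun y : Fin n → ℝ => cis (lin (cnd k i) y) := continuous_cis.comp (continuous_lin _)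
  unfold pos
  split_ifs
  · exact h1.mul (continuous_const.mul h2)
  · exact h1.mul (continuous_const.add (continuous_const.mul h2))

theorem pos_per {n : ℕ} (k i : ℕ) (y : Fin n → ℝ) (m : Fin n → ℤ) :
    pos k (fun j => y j + m j) i = pos k y i := by
  unfold pos
  rw [cis_lin_add, cis_lin_add]

theorem pos_zero {n : ℕ} (k i : ℕ) : pos k (0 : Fin n → ℝ) i = i := by
  unfold pos
  rw [lin_zero, lin_zero, cis_zero]
  split_ifs <;> ring

theorem pos_inj {n : ℕ} (k : ℕ) (y : Fin n → ℝ) {a b : ℕ} (ha : a < k) (hb : b < k)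
    (h : pos k y a = pos k y b) : a = b := by
  have key : ∀ a b : ℕ, a < k → b < k → a < b → pos k y a ≠ pos k y b := by
    intro a b ha hb hab h
    unfold pos at h
    have h1 := mul_left_cancel₀ (cis_ne_zero _) h
    by_cases h2 : 2 * b < k
    · rw [if_pos h2, if_pos (by omega)] at h1
      have h3 := congrArg norm h1
      rw [norm_mul, norm_mul, norm_cis, norm_cis, mul_one, mul_one, Complex.norm_natCast,
        Complex.norm_natCast] at h3
      have : a = b := by exact_mod_cast h3
      omega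
    · rw [if_neg h2] at h1
      have eb : ((b : ℂ) - ((k : ℂ) - 1)) = (((b : ℝ) - (k - 1) : ℝ) : ℂ) := by push_cast; ring
      have ea : ((a : ℂ) - ((k : ℂ) - 1)) = (((a : ℝ) - (k - 1) : ℝ) : ℂ) := by push_cast; ring
      have hbk : (b : ℝ) + 1 ≤ k := by exact_mod_cast hb
      have hak : (a : ℝ) + 1 ≤ k := by exact_mod_cast ha
      have hab' : (a : ℝ) < b := by exact_mod_cast hab
      by_cases h4 : 2 * a < k
      · rw [if_pos h4] at h1
        have h5 : ((((k : ℝ) - 1 : ℝ)) : ℂ) = (a : ℂ) * cis (lin (cnd k a) y) -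
            (((b : ℝ) - (k - 1) : ℝ) : ℂ) * cis (lin (cnd k b) y) := by
          rw [h1, eb]
          push_cast
          ring
        have h6 := congrArg norm h5
        have h7 := norm_sub_le ((a : ℂ) * cis (lin (cnd k a) y))
          ((((b : ℝ) - (k - 1) : ℝ) : ℂ) * cis (lin (cnd k b) y))
        rw [← h6, norm_mul, norm_mul, norm_cis, norm_cis, mul_one, mul_one, Complex.norm_natCast,
          Complex.norm_real, Complex.norm_real, Real.norm_eq_abs, Real.norm_eq_abs,
          abs_of_nonpos (by linarith : (b : ℝ) - (k - 1) ≤ 0)] at h7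
        have h8 : (k : ℝ) - 1 ≤ |(k : ℝ) - 1| := le_abs_self _
        linarith
      · rw [if_neg h4] at h1
        have h5 : (((a : ℝ) - (k - 1) : ℝ) : ℂ) * cis (lin (cnd k a) y) =
            (((b : ℝ) - (k - 1) : ℝ) : ℂ) * cis (lin (cnd k b) y) := by
          rw [← ea, ← eb]
          exact add_left_cancel h1
        have h6 := congrArg norm h5
        rw [norm_mul, norm_mul, norm_cis, norm_cis, mul_one, mul_one, Complex.norm_real,
          Complex.norm_real, Real.norm_eq_abs, Real.norm_eq_abs,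
          abs_of_nonpos (by linarith : (b : ℝ) - (k - 1) ≤ 0),
          abs_of_nonpos (by linarith : (a : ℝ) - (k - 1) ≤ 0)] at h6
        linarith
  rcases lt_trichotomy a b with h1 | h1 | h1
  · exact absurd h (key a b ha hb h1)
  · exact h1
  · exact absurd h.symm (key b a hb ha h1)

/-- the torus of configurations -/
noncomputable def torus (k n : ℕ) : C(Fin n → ℝ, Conf k) where
  toFun y := ⟨fun i => pos k y i, fun _ _ h => Fin.ext (pos_inj k y (Fin.is_lt _) (Fin.is_lt _) h)⟩
  continuous_toFun := Continuous.subtype_mk (f := fun (y : Fin n → ℝ) (i : Fin k) => pos k y i)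
    (continuous_pi fun i => continuous_pos k i) _

theorem torus_apply (k n : ℕ) (y : Fin n → ℝ) (i : Fin k) : (torus k n y).1 i = pos k y i := rfl

theorem torus_zero (k n : ℕ) : torus k n 0 = std k := by
  apply Subtype.ext
  funext i
  exact pos_zero k i

theorem torus_per (k n : ℕ) (y : Fin n → ℝ) (m : Fin n → ℤ) :
    torus k n (fun j => y j + m j) = torus k n y := by
  apply Subtype.ext
  funext i
  exact pos_per k i y m

/-- the loops of the torus are rotations -/
theorem pos_single (k : ℕ) (t : ℝ) (j : Fin (2 * (k / 2) - 1)) (i : ℕ) (hi : i < k) :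
    pos k (fun i => t * ((Pi.single j (1 : ℤ) : Fin (2 * (k / 2) - 1) → ℤ) i : ℤ)) i =
      if (j : ℕ) + 1 < k / 2 then rot 0 0 ((j : ℕ) + 2) t i
      else if (j : ℕ) + 2 < 2 * (k / 2) then
        rot ((k : ℝ) - 1) (k - ((j : ℕ) + 3 - k / 2)) ((j : ℕ) + 3 - k / 2) t i
      else rot 0 0 k t i := by
  have hj := j.2
  unfold pos
  rw [lin_single, lin_single]
  by_cases h1 : (j : ℕ) + 1 < k / 2
  · have hw : ¬ cnw k j := by unfold cnw; omega
    rw [if_pos h1, if_neg hw, cis_zero, one_mul]
    unfold rot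
    by_cases h2 : i ≤ (j : ℕ) + 1
    · have hc : cnd k i j := Or.inl ⟨h1, h2⟩
      rw [if_pos (by omega), if_pos hc, if_pos (by omega)]
      push_cast
      ring
    · have hc : ¬ cnd k i j := by unfold cnd; omega
      rw [if_neg hc, cis_zero, if_neg (by omega : ¬ (0 ≤ i ∧ i < 0 + ((j : ℕ) + 2)))]
      split_ifs <;> ring
  · rw [if_neg h1]
    by_cases h3 : (j : ℕ) + 2 < 2 * (k / 2)
    · have hw : ¬ cnw k j := by unfold cnw; omega
      rw [if_pos h3, if_neg hw, cis_zero, one_mul]
      unfold rot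
      by_cases h2 : k ≤ i + ((j : ℕ) + 3 - k / 2)
      · have hc : cnd k i j := Or.inr ⟨h1, h3, h2⟩
        rw [if_neg (by omega), if_pos hc, if_pos (by omega)]
        push_cast
        ring
      · have hc : ¬ cnd k i j := by unfold cnd; omega
        rw [if_neg hc, cis_zero, if_neg (by omega : ¬ (k - ((j : ℕ) + 3 - k / 2) ≤ i ∧
          i < k - ((j : ℕ) + 3 - k / 2) + ((j : ℕ) + 3 - k / 2)))]
        split_ifs <;> ring
    · have hw : cnw k j := by unfold cnw; omega
      have hc : ¬ cnd k i j := by unfold cnd; omega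
      rw [if_neg h3, if_pos hw, if_neg hc, cis_zero]
      unfold rot
      rw [if_pos (by omega : 0 ≤ i ∧ i < 0 + k)]
      split_ifs
      · push_cast
        ring
      · push_cast
        ring

/-- the classes of the basis loops -/
theorem torus_class (G : SymMap k Y) (j : Fin (2 * (k / 2) - 1)) (γ : Path (std k) (std k))
    (hγ : ∀ t : unitInterval, γ t = torus k (2 * (k / 2) - 1)
      (fun i => (t : ℝ) * ((Pi.single j (1 : ℤ) : Fin (2 * (k / 2) - 1) → ℤ) i : ℤ))) :
    fp (γ.map G.toMap.continuous) = bas k (gen G) j := by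
  have hj := j.2
  have hP : ∀ (t : unitInterval) (i : Fin k), (γ t).1 i = if (j : ℕ) + 1 < k / 2 then rot 0 0 ((j : ℕ) + 2) t i
      else if (j : ℕ) + 2 < 2 * (k / 2) then
        rot ((k : ℝ) - 1) (k - ((j : ℕ) + 3 - k / 2)) ((j : ℕ) + 3 - k / 2) t i
      else rot 0 0 k t i := by
    intro t i
    rw [hγ t, torus_apply, pos_single k t j i i.2]
  unfold bas
  by_cases h1 : (j : ℕ) + 1 < k / 2
  · simp only [if_pos h1] at hP ⊢
    refine rot_class G (C := 0) (R := (j : ℕ) + 1) (by omega) ?_ ?_ ?_ γ hP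
    · intro i hi1 hi2
      rw [sub_zero, abs_of_nonneg (Nat.cast_nonneg i)]
      exact_mod_cast (by omega : i ≤ (j : ℕ) + 1)
    · intro i hi
      omega
    · intro i hi1 hi2
      rw [zero_add]
      exact_mod_cast (by omega : (j : ℕ) + 1 < i)
  · simp only [if_neg h1] at hP ⊢
    by_cases h2 : (j : ℕ) + 2 < 2 * (k / 2)
    · simp only [if_pos h2] at hP ⊢
      obtain ⟨n, hn⟩ : ∃ n, n + 1 = (j : ℕ) + 3 - k / 2 := ⟨(j : ℕ) + 2 - k / 2, by omega⟩
      rw [← hn] at hP ⊢
      have hkn : n + 1 ≤ k := by omega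
      refine rot_class G (C := (k : ℝ) - 1) (R := n) (by omega) ?_ ?_ ?_ γ hP
      · intro i hi1 hi2
        have h3 : (i : ℝ) + 1 ≤ k := by exact_mod_cast (by omega : i + 1 ≤ k)
        have h4 : (k : ℝ) ≤ i + (n + 1) := by exact_mod_cast (by omega : k ≤ i + (n + 1))
        rw [abs_of_nonpos (by linarith)]
        linarith
      · intro i hi
        have h3 : (i : ℝ) + n + 2 ≤ k := by exact_mod_cast (by omega : i + n + 2 ≤ k)
        linarith
      · intro i hi1 hi2
        omega
    · simp only [if_neg h2] at hP ⊢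
      refine rot_class G (C := 0) (R := (k : ℝ) - 1) (by omega) ?_ ?_ ?_ γ hP
      · intro i hi1 hi2
        rw [sub_zero, abs_of_nonneg (Nat.cast_nonneg i)]
        have h3 : (i : ℝ) + 1 ≤ k := by exact_mod_cast (by omega : i + 1 ≤ k)
        linarith
      · intro i hi
        omega
      · intro i hi1 hi2
        omega

end TF49
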